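import Pool.Agent.K4H44.BLT.Flow

/-!
# The integral of the integer valued defect of two flows
-/

set_option autoImplicit false
set_option linter.unusedSectionVars false

noncomputable section

open MeasureTheory Filter Topology
open scoped ENNReal Real

namespace Pool.Agent.K4H44.BLT

theorem arg_small {w : ℂ} (h : ‖w - 1‖ < 1 / 4) : |w.arg| < π / 6 := by
  have h1 : |(w - 1).re| ≤ ‖w - 1‖ := Complex.abs_re_le_norm _
  have h2 : |(w - 1).im| ≤ ‖w - 1‖ := Complex.abs_im_le_norm _
  simp only [Complex.sub_re, Complex.one_re, Complex.sub_im, Complex.one_im, sub_zero] at h1 h2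
  have h3 := abs_lt.1 (h1.trans_lt h)
  have h4 := abs_lt.1 (h2.trans_lt h)
  have hre : 3 / 4 < w.re := by linarith
  have hn : 3 / 4 < ‖w‖ := hre.trans_le (Complex.re_le_norm w)
  have hn0 : 0 < ‖w‖ := by linarith
  rw [Complex.arg_of_re_nonneg (by linarith)]
  have h5 : w.im / ‖w‖ < 1 / 2 := by
    rw [div_lt_iff₀ hn0]; linarith
  have h6 : -(1 / 2) < w.im / ‖w‖ := by
    rw [lt_div_iff₀ hn0]; linarith
  have h7 : Real.sin (π / 6) = 1 / 2 := Real.sin_pi_div_six
  rw [abs_lt]
  have hpi := Real.pi_pos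
  constructor
  · rw [Real.lt_arcsin_iff_sin_lt' ⟨by linarith, by linarith⟩, Real.sin_neg, h7]
    exact h6
  · rw [Real.arcsin_lt_iff_lt_sin' ⟨by linarith, by linarith⟩, h7]
    exact h5

theorem integer_of_relation {a b c d : ℂ} (ha : a ≠ 0) (hb : b ≠ 0)
    (θ : ℝ) (h : a * b = Complex.exp (θ * Complex.I) * (c * d)) :
    ∃ n : ℤ, a.arg + b.arg - c.arg - d.arg - θ = 2 * π * n := by
  have e : ∀ x : ℂ, (‖x‖ : ℂ) * Complex.exp (x.arg * Complex.I) = x := fun x =>
    Complex.norm_mul_exp_arg_mul_I x
  have hnorm : ‖a‖ * ‖b‖ = ‖c‖ * ‖d‖ := by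
    have := congrArg norm h
    rw [norm_mul, norm_mul, norm_mul, Complex.norm_exp_ofReal_mul_I, one_mul] at this
    exact this
  have hne : ((‖a‖ * ‖b‖ : ℝ) : ℂ) ≠ 0 := by
    have : ‖a‖ * ‖b‖ ≠ 0 := mul_ne_zero (norm_ne_zero_iff.2 ha) (norm_ne_zero_iff.2 hb)
    exact_mod_cast this
  have h1 : ((‖a‖ * ‖b‖ : ℝ) : ℂ) * Complex.exp ((a.arg + b.arg : ℝ) * Complex.I) =
      ((‖a‖ * ‖b‖ : ℝ) : ℂ) * Complex.exp ((θ + c.arg + d.arg : ℝ) * Complex.I) := by
    have h2 : ((‖a‖ * ‖b‖ : ℝ) : ℂ) * Complex.exp ((a.arg + b.arg : ℝ) * Complex.I) = a * b := by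
      conv_rhs => rw [← e a, ← e b]
      push_cast
      rw [add_mul, Complex.exp_add]
      ring
    have h3 : ((‖a‖ * ‖b‖ : ℝ) : ℂ) * Complex.exp ((θ + c.arg + d.arg : ℝ) * Complex.I) =
        Complex.exp (θ * Complex.I) * (c * d) := by
      rw [hnorm]
      conv_rhs => rw [← e c, ← e d]
      push_cast
      rw [add_mul, add_mul, Complex.exp_add, Complex.exp_add]
      ring
    rw [h2, h3, h]
  have h2 := mul_left_cancel₀ hne h1
  rw [Complex.exp_eq_exp_iff_exists_int] at h2
  obtain ⟨n, hn⟩ := h2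
  refine ⟨n, ?_⟩
  have h3 := congrArg Complex.im hn
  simp at h3
  linarith

variable {G : Type*} [AddCommGroup G] [MeasurableSpace G] [MeasurableAdd G] {μ : Measure G}
  [μ.IsAddRightInvariant] [IsProbabilityMeasure μ]
  {H : Type*} [NormedAddCommGroup H] [NormedSpace ℂ H]
  {V : Lp ℂ 2 μ ≃L[ℂ] H} {one : Lp ℂ 2 μ} {M T : ℝ → H →L[ℂ] H} {y y' : ℝ → G} {K K' : ℝ}

/-- The set where the cocycle is not close to one. -/
def badSet (V : Lp ℂ 2 μ ≃L[ℂ] H) (one : Lp ℂ 2 μ) (M : ℝ → H →L[ℂ] H) (s : ℝ) : Set G :=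
  {z | 1 / 4 ≤ ‖coc V one M s z - 1‖}

theorem measurableSet_badSet (s : ℝ) : MeasurableSet (badSet V one M s) :=
  measurableSet_le measurable_const
    (((Lp.stronglyMeasurable _).measurable.sub_const (1 : ℂ)).norm)

theorem defect (F : Flow V one M y K) (F' : Flow V one T y' K')
    (hcomm : ∀ s t f, M s (T t f) = Complex.exp ((2 * π * s * t : ℝ) * Complex.I) • T t (M s f))
    {s t : ℝ} (hs : 0 < s) (ht : 0 < t) (hst : s * t < 1 / 2) :
    s * t ≤ 6 * ((μ (badSet V one M s)).toReal + (μ (badSet V one T t)).toReal) := by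
  set c := coc V one M s with hc
  set d := coc V one T t with hd
  have hpi := Real.pi_pos
  have hstpos : 0 < s * t := mul_pos hs ht
  -- the relation
  have hrel : ∀ᵐ z ∂μ, d (z + y s) * c z =
      Complex.exp ((2 * π * s * t : ℝ) * Complex.I) * (c (z + y' t) * d z) := by
    have h1 := F.weight s d
    have h2 := F'.weight t c
    have e1 : V.symm (M s (V d)) =
        Complex.exp ((2 * π * s * t : ℝ) * Complex.I) • V.symm (T t (V c)) := by
      rw [hd, hc, coc, coc, ContinuousLinearEquiv.apply_symm_apply,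
        ContinuousLinearEquiv.apply_symm_apply, hcomm, map_smul]
    have h3 := Lp.coeFn_smul (Complex.exp ((2 * π * s * t : ℝ) * Complex.I)) (V.symm (T t (V c)))
    rw [← e1] at h3
    filter_upwards [h1, h2, h3] with z a1 a2 a3
    rw [a3, Pi.smul_apply, a2, smul_eq_mul] at a1
    exact a1.symm
  -- the functions
  have hcm : Measurable c := (Lp.stronglyMeasurable c).measurable
  have hdm : Measurable d := (Lp.stronglyMeasurable d).measurable
  set f₁ : G → ℝ := fun z => (d z).arg with hf₁
  set f₂ : G → ℝ := fun z => (c z).arg with hf₂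
  have hf₁m : Measurable f₁ := Complex.measurable_arg.comp hdm
  have hf₂m : Measurable f₂ := Complex.measurable_arg.comp hcm
  have hint : ∀ f : G → ℝ, Measurable f → (∀ z, |f z| ≤ π) → Integrable f μ := by
    intro f hf hb
    exact Integrable.of_bound hf.aestronglyMeasurable π (Eventually.of_forall hb)
  have hf₁b : ∀ z, |f₁ z| ≤ π := fun z => Complex.abs_arg_le_pi _
  have hf₂b : ∀ z, |f₂ z| ≤ π := fun z => Complex.abs_arg_le_pi _
  have hshift : ∀ (f : G → ℝ) (a : G), ∫ z, f (z + a) ∂μ = ∫ z, f z ∂μ := fun f a =>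
    integral_add_right_eq_self f a
  set ν : G → ℝ := fun z => f₁ (z + y s) + f₂ z - f₂ (z + y' t) - f₁ z - 2 * π * (s * t) with hν
  have hi1 : Integrable (fun z => f₁ (z + y s)) μ :=
    hint _ (hf₁m.comp (measurable_add_const _)) fun z => hf₁b _
  have hi2 : Integrable (fun z => f₂ (z + y' t)) μ :=
    hint _ (hf₂m.comp (measurable_add_const _)) fun z => hf₂b _
  have hi3 := hint f₁ hf₁m hf₁b
  have hi4 := hint f₂ hf₂m hf₂b
  have hA : Integrable (fun z => f₁ (z + y s) + f₂ z) μ := hi1.add hi4
  have hB : Integrable (fun z => f₁ (z + y s) + f₂ z - f₂ (z + y' t)) μ := hA.sub hi2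
  have hC : Integrable (fun z => f₁ (z + y s) + f₂ z - f₂ (z + y' t) - f₁ z) μ := hB.sub hi3
  have hνint : ∫ z, ν z ∂μ = - (2 * π * (s * t)) := by
    simp only [hν]
    rw [integral_sub hC (integrable_const _), integral_sub hB hi3, integral_sub hA hi2,
      integral_add hi1 hi4, hshift f₁, hshift f₂, integral_const, probReal_univ]
    simp
  have hνI : Integrable ν μ := hC.sub (integrable_const _)
  set Bad : Set G := (badSet V one M s ∪ (fun z => z + y' t) ⁻¹' badSet V one M s) ∪
    (badSet V one T t ∪ (fun z => z + y s) ⁻¹' badSet V one T t) with hBad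
  have hBadm : MeasurableSet Bad := by
    refine ((measurableSet_badSet s).union ((measurable_add_const _) (measurableSet_badSet s))).union
      ((measurableSet_badSet t).union ((measurable_add_const _) (measurableSet_badSet t)))
  have hle : ∀ᵐ z ∂μ, |ν z| ≤ Bad.indicator (fun _ => 2 * π * 3) z := by
    have n1 := F.coc_ne s
    have n2 := F'.coc_ne t
    filter_upwards [hrel, n1, n2, ae_translate (y' t) n1, ae_translate (y s) n2]
      with z h0 h1 h2 h3 h4
    have hab : |ν z| ≤ 2 * π * 3 := by
      have b1 := hf₁b (z + y s)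
      have b2 := hf₂b z
      have b3 := hf₂b (z + y' t)
      have b4 := hf₁b z
      rw [abs_le] at b1 b2 b3 b4 ⊢
      have b5 : 2 * π * (s * t) ≤ π := by nlinarith
      have b6 : 0 ≤ 2 * π * (s * t) := by positivity
      simp only [hν]
      constructor <;> linarith
    by_cases hz : z ∈ Bad
    · rw [Set.indicator_of_mem hz]
      exact hab
    · rw [Set.indicator_of_notMem hz]
      obtain ⟨n, hn⟩ := integer_of_relation h4 h1 (2 * π * s * t) h0
      have hνn : ν z = 2 * π * n := by
        simp only [hν, hf₁, hf₂]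
        rw [← hn]
        ring
      have hz1 : ‖c z - 1‖ < 1 / 4 := by
        by_contra hcon
        exact hz (Or.inl (Or.inl (not_lt.1 hcon)))
      have hz2 : ‖c (z + y' t) - 1‖ < 1 / 4 := by
        by_contra hcon
        exact hz (Or.inl (Or.inr (not_lt.1 hcon)))
      have hz3 : ‖d z - 1‖ < 1 / 4 := by
        by_contra hcon
        exact hz (Or.inr (Or.inl (not_lt.1 hcon)))
      have hz4 : ‖d (z + y s) - 1‖ < 1 / 4 := by
        by_contra hcon
        exact hz (Or.inr (Or.inr (not_lt.1 hcon)))
      have b1 := abs_lt.1 (arg_small hz1)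
      have b2 := abs_lt.1 (arg_small hz2)
      have b3 := abs_lt.1 (arg_small hz3)
      have b4 := abs_lt.1 (arg_small hz4)
      have b5 : 2 * π * (s * t) < π := by nlinarith
      have b6 : 0 < 2 * π * (s * t) := by positivity
      have hn0 : n = 0 := by
        have c1 : ν z < 2 * π := by
          simp only [hν, hf₁, hf₂]; linarith
        have c2 : -(2 * π) < ν z := by
          simp only [hν, hf₁, hf₂]; linarith
        rw [hνn] at c1 c2
        have c3 : (n : ℝ) < 1 := by nlinarith
        have c4 : (-1 : ℝ) < n := by nlinarith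
        have c5 : n < 1 := by exact_mod_cast c3
        have c6 : -1 < n := by exact_mod_cast c4
        omega
      rw [hνn, hn0]
      simp
  have h1 : 2 * π * (s * t) ≤ 2 * π * 3 * (μ Bad).toReal := by
    calc 2 * π * (s * t) = |∫ z, ν z ∂μ| := by
          rw [hνint, abs_neg, abs_of_pos (by positivity)]
      _ ≤ ∫ z, |ν z| ∂μ := abs_integral_le_integral_abs
      _ ≤ ∫ z, Bad.indicator (fun _ => 2 * π * 3) z ∂μ :=
          integral_mono_ae hνI.abs ((integrable_const _).indicator hBadm) hle
      _ = 2 * π * 3 * (μ Bad).toReal := by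
          rw [integral_indicator hBadm, setIntegral_const, smul_eq_mul]
          simp only [Measure.real]
          ring
  have h2 : s * t ≤ 3 * (μ Bad).toReal := by
    have : 2 * π * (s * t) ≤ 2 * π * (3 * (μ Bad).toReal) := by linarith
    exact le_of_mul_le_mul_left this (by positivity)
  have h3 : μ Bad ≤ (μ (badSet V one M s) + μ (badSet V one M s)) +
      (μ (badSet V one T t) + μ (badSet V one T t)) := by
    refine (measure_union_le _ _).trans (add_le_add ((measure_union_le _ _).trans ?_)
      ((measure_union_le _ _).trans ?_))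
    · refine add_le_add le_rfl (le_of_eq ?_)
      exact (measurePreserving_add_right μ (y' t)).measure_preimage
        (measurableSet_badSet s).nullMeasurableSet
    · refine add_le_add le_rfl (le_of_eq ?_)
      exact (measurePreserving_add_right μ (y s)).measure_preimage
        (measurableSet_badSet t).nullMeasurableSet
  have h4 : (μ Bad).toReal ≤ 2 * (μ (badSet V one M s)).toReal + 2 * (μ (badSet V one T t)).toReal := by
    have h5 := ENNReal.toReal_mono (by finiteness) h3
    rw [ENNReal.toReal_add (by finiteness) (by finiteness), ENNReal.toReal_add (by finiteness)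
      (by finiteness), ENNReal.toReal_add (by finiteness) (by finiteness)] at h5
    linarith
  linarith

end Pool.Agent.K4H44.BLT
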