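import Mathlib

/-!
# Weighted translation operators on `L²` of a group
-/

set_option autoImplicit false

noncomputable section

open MeasureTheory Filter Topology
open scoped ENNReal

namespace Pool.Agent.K4H44.BLT

variable {G : Type*} [AddCommGroup G] [MeasurableSpace G] [MeasurableAdd G] {μ : Measure G}
  [μ.IsAddRightInvariant]

theorem ae_translate {p : G → Prop} (y : G) (h : ∀ᵐ z ∂μ, p z) : ∀ᵐ z ∂μ, p (z + y) :=
  (measurePreserving_add_right μ y).quasiMeasurePreserving.ae h

/-- An operator on `L²` which is a weighted translation on a total set of characters is one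
everywhere. -/
theorem ae_of_dense {ι : Type*} {χ : ι → G → ℂ} {e : ι → Lp ℂ 2 μ} (he : ∀ n, e n =ᵐ[μ] χ n)
    (hd : Dense (Submodule.span ℂ (Set.range e) : Set (Lp ℂ 2 μ)))
    (A : Lp ℂ 2 μ →L[ℂ] Lp ℂ 2 μ) (y : G) (c : G → ℂ)
    (hn : ∀ n, A (e n) =ᵐ[μ] fun z => χ n (z + y) * c z) (h : Lp ℂ 2 μ) :
    A h =ᵐ[μ] fun z => h (z + y) * c z := by
  let S : Submodule ℂ (Lp ℂ 2 μ) :=
    { carrier := {h | A h =ᵐ[μ] fun z => h (z + y) * c z}
      zero_mem' := by
        have h1 := Lp.coeFn_zero ℂ 2 μ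
        have h2 := ae_translate y h1
        change (A 0 : G → ℂ) =ᵐ[μ] _
        rw [map_zero]
        filter_upwards [h1, h2] with z e1 e2
        rw [e1, e2]
        simp
      add_mem' := by
        intro a b ha hb
        change (A (a + b) : G → ℂ) =ᵐ[μ] _
        rw [map_add]
        filter_upwards [ha, hb, Lp.coeFn_add (A a) (A b), ae_translate y (Lp.coeFn_add a b)]
          with z e1 e2 e3 e4
        rw [e3, e4, Pi.add_apply, Pi.add_apply, e1, e2]
        ring
      smul_mem' := by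
        intro r a ha
        change (A (r • a) : G → ℂ) =ᵐ[μ] _
        rw [map_smul]
        filter_upwards [ha, Lp.coeFn_smul r (A a), ae_translate y (Lp.coeFn_smul r a)]
          with z e1 e3 e4
        rw [e3, e4, Pi.smul_apply, Pi.smul_apply, e1]
        simp only [smul_eq_mul]
        ring }
  have hSe : Submodule.span ℂ (Set.range e) ≤ S := by
    rw [Submodule.span_le]
    rintro _ ⟨n, rfl⟩
    change (A (e n) : G → ℂ) =ᵐ[μ] _
    filter_upwards [hn n, ae_translate y (he n)] with z e1 e2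
    rw [e1, e2]
  have hclosed : IsClosed (S : Set (Lp ℂ 2 μ)) := by
    apply IsSeqClosed.isClosed
    intro x p hx hp
    have h1 : Tendsto (fun n => A (x n)) atTop (𝓝 (A p)) := (A.continuous.tendsto p).comp hp
    have h2 := tendstoInMeasure_of_tendsto_Lp h1
    obtain ⟨ns, hns, h3⟩ := h2.exists_seq_tendsto_ae
    have h4 : Tendsto (fun n => x (ns n)) atTop (𝓝 p) := hp.comp hns.tendsto_atTop
    obtain ⟨ms, hms, h5⟩ := (tendstoInMeasure_of_tendsto_Lp h4).exists_seq_tendsto_ae
    have h6 : ∀ᵐ z ∂μ, ∀ n, (A (x n) : G → ℂ) z = x n (z + y) * c z := by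
      rw [ae_all_iff]
      exact fun n => hx n
    change (A p : G → ℂ) =ᵐ[μ] _
    filter_upwards [h3, ae_translate y h5, h6] with z e1 e2 e3
    have e4 := e1.comp hms.tendsto_atTop
    have e5 := e2.mul_const (c z)
    refine tendsto_nhds_unique e4 (e5.congr fun n => ?_)
    rw [Function.comp_apply, e3]
  have hSt : (S : Set (Lp ℂ 2 μ)) = Set.univ := by
    apply Set.eq_univ_of_univ_subset
    rw [← hd.closure_eq]
    exact hclosed.closure_subset_iff.2 hSe
  have : h ∈ (S : Set (Lp ℂ 2 μ)) := by rw [hSt]; trivial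
  exact this

/-- The weight of a bounded weighted translation operator is bounded. -/
theorem weight_bound [IsFiniteMeasure μ] (A : Lp ℂ 2 μ →L[ℂ] Lp ℂ 2 μ) (K : ℝ) (hK : 0 ≤ K)
    (hA : ∀ h, ‖A h‖ ≤ K * ‖h‖) (y : G) (c : Lp ℂ 2 μ)
    (hn : ∀ h, A h =ᵐ[μ] fun z => h (z + y) * c z) : ∀ᵐ z ∂μ, ‖c z‖ ≤ K := by
  have hcm : Measurable c := (Lp.stronglyMeasurable c).measurable
  have key : ∀ᵐ z ∂μ, ‖c z‖ₑ ^ 2 ≤ (ENNReal.ofReal K) ^ 2 := by
    refine ae_le_of_forall_setLIntegral_le_of_sigmaFinite (hcm.enorm.pow_const 2)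
      (fun s hs hsμ => ?_)
    have hs' : MeasurableSet ((fun z => z + -y) ⁻¹' s) := (measurable_add_const (-y)) hs
    have hμs : μ ((fun z => z + -y) ⁻¹' s) = μ s :=
      (measurePreserving_add_right μ (-y)).measure_preimage hs.nullMeasurableSet
    have hfin : μ ((fun z => z + -y) ⁻¹' s) ≠ ∞ := by rw [hμs]; exact hsμ.ne
    let h : Lp ℂ 2 μ := indicatorConstLp 2 hs' hfin (1 : ℂ)
    have h1 := hn h
    have h2 : (h : G → ℂ) =ᵐ[μ] ((fun z => z + -y) ⁻¹' s).indicator fun _ => (1 : ℂ) :=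
      indicatorConstLp_coeFn
    have h3 : (A h : G → ℂ) =ᵐ[μ] s.indicator c := by
      filter_upwards [h1, ae_translate y h2] with z e1 e2
      rw [e1, e2]
      by_cases hz : z ∈ s
      · rw [Set.indicator_of_mem (by simpa using hz), Set.indicator_of_mem hz, one_mul]
      · rw [Set.indicator_of_notMem (by simpa using hz), Set.indicator_of_notMem hz, zero_mul]
    have h4 : eLpNorm (A h) 2 μ ≤ ENNReal.ofReal K * eLpNorm h 2 μ := by
      have := hA h
      rw [Lp.norm_def, Lp.norm_def] at this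
      rw [← ENNReal.ofReal_toReal (Lp.eLpNorm_ne_top (A h)),
        ← ENNReal.ofReal_toReal (Lp.eLpNorm_ne_top h), ← ENNReal.ofReal_mul hK]
      exact ENNReal.ofReal_le_ofReal this
    have h5 : eLpNorm (A h) 2 μ ^ 2 = ∫⁻ z in s, ‖c z‖ₑ ^ 2 ∂μ := by
      rw [eLpNorm_congr_ae h3, eLpNorm_eq_lintegral_rpow_enorm_toReal (by simp) (by simp)]
      rw [← ENNReal.rpow_natCast, ← ENNReal.rpow_mul]
      norm_num
      rw [← lintegral_indicator hs]
      congr 1
      funext z
      by_cases hz : z ∈ s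
      · simp [hz]
      · simp [hz]
    have h6 : eLpNorm h 2 μ ^ 2 = μ s := by
      rw [eLpNorm_congr_ae h2, eLpNorm_eq_lintegral_rpow_enorm_toReal (by simp) (by simp)]
      rw [← ENNReal.rpow_natCast, ← ENNReal.rpow_mul]
      norm_num
      rw [← hμs, ← lintegral_indicator_one hs']
      congr 1
      funext z
      by_cases hz : z ∈ (fun z => z + -y) ⁻¹' s
      · rw [Set.indicator_of_mem hz, Set.indicator_of_mem hz]; simp
      · rw [Set.indicator_of_notMem hz, Set.indicator_of_notMem hz]; simp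
    rw [setLIntegral_const, ← h5, ← h6, ← mul_pow]
    exact pow_le_pow_left' h4 2
  filter_upwards [key] with z hz
  have h1 : ‖c z‖ₑ ≤ ENNReal.ofReal K := by
    by_contra hcon
    push Not at hcon
    exact absurd hz (not_le.2 (ENNReal.pow_lt_pow_left (by norm_num) hcon))
  rw [← ofReal_norm] at h1
  exact (ENNReal.ofReal_le_ofReal_iff hK).1 h1

end Pool.Agent.K4H44.BLT
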