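import Pool.Agent.K4H44.BLT.Markov
import Pool.Agent.K4H44.BLT.Dense

/-!
# One-parameter groups of weighted translations
-/

set_option autoImplicit false
set_option linter.unusedSectionVars false

noncomputable section

open MeasureTheory Filter Topology
open scoped ENNReal

namespace Pool.Agent.K4H44.BLT

variable {G : Type*} [AddCommGroup G] [MeasurableSpace G] [MeasurableAdd G] {μ : Measure G}
  [μ.IsAddRightInvariant] [IsProbabilityMeasure μ]
  {H : Type*} [NormedAddCommGroup H] [NormedSpace ℂ H]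

/-- A one-parameter group `M` of contractions of `H` which corresponds under `V` to weighted
translations of functions on `G`. -/
structure Flow (V : Lp ℂ 2 μ ≃L[ℂ] H) (one : Lp ℂ 2 μ) (M : ℝ → H →L[ℂ] H) (y : ℝ → G)
    (K : ℝ) : Prop where
  hK : 1 ≤ K
  hone : one =ᵐ[μ] fun _ => 1
  zero : ∀ f, M 0 f = f
  add : ∀ s s' f, M (s + s') f = M s (M s' f)
  y_add : ∀ s s', y (s + s') = y s + y s'
  bound : ∀ s h, ‖V.symm (M s (V h))‖ ≤ K * ‖h‖
  weight : ∀ s h, V.symm (M s (V h)) =ᵐ[μ] fun z => h (z + y s) * V.symm (M s (V one)) z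

variable {V : Lp ℂ 2 μ ≃L[ℂ] H} {one : Lp ℂ 2 μ} {M : ℝ → H →L[ℂ] H} {y : ℝ → G} {K : ℝ}

/-- The cocycle. -/
def coc (V : Lp ℂ 2 μ ≃L[ℂ] H) (one : Lp ℂ 2 μ) (M : ℝ → H →L[ℂ] H) (s : ℝ) : Lp ℂ 2 μ :=
  V.symm (M s (V one))

namespace Flow

variable (F : Flow V one M y K)
include F

theorem le (s : ℝ) : ∀ᵐ z ∂μ, ‖coc V one M s z‖ ≤ K := by
  have h := weight_bound (((V.symm : H →L[ℂ] Lp ℂ 2 μ) ∘L (M s)) ∘L (V : Lp ℂ 2 μ →L[ℂ] H)) K
    (zero_le_one.trans F.hK) (fun h => F.bound s h) (y s) (coc V one M s)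
    (fun h => F.weight s h)
  exact h

theorem coc_zero : coc V one M 0 =ᵐ[μ] fun _ => 1 := by
  have : coc V one M 0 = one := by
    rw [coc, F.zero, ContinuousLinearEquiv.symm_apply_apply]
  rw [this]
  exact F.hone

theorem coc_add (s s' : ℝ) : coc V one M (s + s') =ᵐ[μ]
    fun z => coc V one M s' (z + y s) * coc V one M s z := by
  have h := F.weight s (coc V one M s')
  have e : V.symm (M s (V (coc V one M s'))) = coc V one M (s + s') := by
    rw [coc, coc, ContinuousLinearEquiv.apply_symm_apply, F.add]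
  rw [e] at h
  exact h

theorem coc_ne (s : ℝ) : ∀ᵐ z ∂μ, coc V one M s z ≠ 0 := by
  have h := F.coc_add s (-s)
  rw [add_neg_cancel] at h
  filter_upwards [h, F.coc_zero] with z e1 e2 e3
  rw [e1, e3, mul_zero] at e2
  exact zero_ne_one e2

/-- Measure bound for the set where the cocycle is not close to one. -/
theorem meas_bound (m : ℕ) : ∃ C : ℝ, 0 ≤ C ∧ ∀ s : ℝ,
    (μ {z | 1 / 4 ≤ ‖coc V one M s z - 1‖}).toReal ≤
      C * ‖(fun f => M s f - f)^[m + 1] (V one)‖ ^ 2 := by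
  have hK0 : 0 < K := zero_lt_one.trans_le F.hK
  obtain ⟨J, η, hη, hmar⟩ := markov m K (1 / 8) hK0.le (by norm_num)
  set κ : ℝ := ‖(V.symm : H →L[ℂ] Lp ℂ 2 μ)‖ with hκ
  refine ⟨(J + 1) * ((η / K)⁻¹ ^ 2 * κ ^ 2), by positivity, fun s => ?_⟩
  -- the iterated differences
  set u : ℕ → H := fun n => (fun f => M s f - f)^[n] (V one) with hu
  set w : ℕ → Lp ℂ 2 μ := fun n => V.symm (u n) with hw
  have hu0 : u 0 = V one := rfl
  have husucc : ∀ n, u (n + 1) = M s (u n) - u n := fun n => by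
    simp only [hu, Function.iterate_succ_apply']
  have hwz : ∀ n, w (n + 1) =ᵐ[μ] fun z => w n (z + y s) * coc V one M s z - w n z := by
    intro n
    have h1 := F.weight s (w n)
    have e1 : V.symm (M s (V (w n))) - w n = w (n + 1) := by
      simp only [hw]
      rw [ContinuousLinearEquiv.apply_symm_apply, husucc, map_sub]
    have h2 := Lp.coeFn_sub (V.symm (M s (V (w n)))) (w n)
    rw [e1] at h2
    filter_upwards [h1, h2] with z e2 e3
    rw [e3, Pi.sub_apply, e2]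
    rfl
  have hw0 : w 0 =ᵐ[μ] fun _ => 1 := by
    have : w 0 = one := by
      simp only [hw, hu0, ContinuousLinearEquiv.symm_apply_apply]
    rw [this]
    exact F.hone
  have hmain : ∀ᵐ z ∂μ, 1 / 4 ≤ ‖coc V one M s z - 1‖ →
      ∃ i ∈ Finset.range (J + 1), η / K ≤ ‖w (m + 1) (z + y (i * s))‖ := by
    have h1 : ∀ᵐ z ∂μ, ∀ i : ℕ, coc V one M ((i : ℝ) * s + s) z =
        coc V one M s (z + y (i * s)) * coc V one M (i * s) z := by
      rw [ae_all_iff]
      exact fun i => F.coc_add _ _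
    have h2 : ∀ᵐ z ∂μ, ∀ i n : ℕ, w (n + 1) (z + y (i * s)) =
        w n (z + y (i * s) + y s) * coc V one M s (z + y (i * s)) - w n (z + y (i * s)) := by
      rw [ae_all_iff]
      intro i
      rw [ae_all_iff]
      intro n
      exact ae_translate (y (i * s)) (hwz n)
    have h3 : ∀ᵐ z ∂μ, ∀ i : ℕ, w 0 (z + y (i * s)) = 1 := by
      rw [ae_all_iff]
      exact fun i => ae_translate (y (i * s)) hw0
    have h4 : ∀ᵐ z ∂μ, ∀ i : ℕ, ‖coc V one M (i * s) z‖ ≤ K := by
      rw [ae_all_iff]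
      exact fun i => F.le _
    filter_upwards [h1, h2, h3, h4, F.coc_zero] with z e1 e2 e3 e4 e5 e6
    by_contra hcon
    push Not at hcon
    have key : ∀ n i : ℕ, D^[n] (fun i : ℕ => coc V one M (i * s) z) i =
        w n (z + y (i * s)) * coc V one M (i * s) z := by
      intro n
      induction n with
      | zero => intro i; simp [e3]
      | succ n ih =>
        intro i
        rw [Function.iterate_succ_apply']
        change D^[n] _ (i + 1) - D^[n] _ i = _
        rw [ih, ih, e2]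
        have e7 : ((i + 1 : ℕ) : ℝ) * s = (i : ℝ) * s + s := by push_cast; ring
        rw [e7, e1, F.y_add, ← add_assoc]
        ring
    have h5 := hmar (fun i : ℕ => coc V one M (i * s) z) e4 (fun i hi => ?_)
    · simp only [Nat.cast_one, one_mul, Nat.cast_zero, zero_mul] at h5
      rw [e5] at h5
      linarith
    · rw [key, norm_mul]
      have h6 := hcon i (Finset.mem_range.2 (by omega))
      calc ‖w (m + 1) (z + y (i * s))‖ * ‖coc V one M (i * s) z‖ ≤ (η / K) * K :=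
            mul_le_mul h6.le (e4 i) (norm_nonneg _) (by positivity)
        _ = η := by field_simp
  have hmeas : μ {z | 1 / 4 ≤ ‖coc V one M s z - 1‖} ≤
      (J + 1 : ℕ) * (ENNReal.ofReal (η / K)⁻¹ ^ 2 * ENNReal.ofReal ‖w (m + 1)‖ ^ 2) := by
    have h1 : μ {z | 1 / 4 ≤ ‖coc V one M s z - 1‖} ≤
        μ (⋃ i ∈ Finset.range (J + 1), {z | η / K ≤ ‖w (m + 1) (z + y (i * s))‖}) := by
      refine measure_mono_ae ?_
      filter_upwards [hmain] with z hz
      intro h
      obtain ⟨i, hi, h'⟩ := hz h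
      exact Set.mem_biUnion hi h'
    refine h1.trans ((measure_biUnion_finset_le _ _).trans ?_)
    have h2 : ∀ i ∈ Finset.range (J + 1), μ {z | η / K ≤ ‖w (m + 1) (z + y (i * s))‖} ≤
        ENNReal.ofReal (η / K)⁻¹ ^ 2 * ENNReal.ofReal ‖w (m + 1)‖ ^ 2 := by
      intro i _
      have hms : MeasurableSet {z | η / K ≤ ‖w (m + 1) z‖} :=
        measurableSet_le measurable_const (Lp.stronglyMeasurable _).measurable.norm
      have e1 : μ {z | η / K ≤ ‖w (m + 1) (z + y (i * s))‖} = μ {z | η / K ≤ ‖w (m + 1) z‖} :=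
        (measurePreserving_add_right μ (y (i * s))).measure_preimage hms.nullMeasurableSet
      rw [e1]
      have hpos : 0 < η / K := by positivity
      have h3 := meas_ge_le_mul_pow_eLpNorm_enorm μ (p := 2) two_ne_zero ENNReal.ofNat_ne_top
        (Lp.aestronglyMeasurable (w (m + 1))) (ε := ENNReal.ofReal (η / K))
        (by simpa using hpos) (by simp)
      have e2 : {z | η / K ≤ ‖w (m + 1) z‖} = {z | ENNReal.ofReal (η / K) ≤ ‖w (m + 1) z‖ₑ} := by
        ext z
        simp only [Set.mem_ofPred_eq]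
        rw [← ofReal_norm, ENNReal.ofReal_le_ofReal_iff (norm_nonneg _)]
      rw [e2]
      refine h3.trans (le_of_eq ?_)
      rw [← ENNReal.ofReal_inv_of_pos hpos, Lp.norm_def,
        ENNReal.ofReal_toReal (Lp.eLpNorm_ne_top _)]
      norm_num
    refine (Finset.sum_le_sum h2).trans ?_
    rw [Finset.sum_const, Finset.card_range, nsmul_eq_mul]
  have hnorm : ‖w (m + 1)‖ ≤ κ * ‖u (m + 1)‖ :=
    (V.symm : H →L[ℂ] Lp ℂ 2 μ).le_opNorm _
  have h1 : (μ {z | 1 / 4 ≤ ‖coc V one M s z - 1‖}).toReal ≤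
      (J + 1) * ((η / K)⁻¹ ^ 2 * ‖w (m + 1)‖ ^ 2) := by
    refine ENNReal.toReal_le_of_le_ofReal (by positivity) (hmeas.trans (le_of_eq ?_))
    rw [ENNReal.ofReal_mul (by positivity), ENNReal.ofReal_mul (by positivity),
      ENNReal.ofReal_pow (by positivity), ENNReal.ofReal_pow (by positivity)]
    congr 1
    rw [← Nat.cast_succ, ENNReal.ofReal_natCast]
  refine h1.trans ?_
  have h2 : ‖w (m + 1)‖ ^ 2 ≤ κ ^ 2 * ‖u (m + 1)‖ ^ 2 := by
    rw [← mul_pow]
    exact pow_le_pow_left₀ (norm_nonneg _) hnorm 2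
  calc ((J : ℝ) + 1) * ((η / K)⁻¹ ^ 2 * ‖w (m + 1)‖ ^ 2)
      ≤ (J + 1) * ((η / K)⁻¹ ^ 2 * (κ ^ 2 * ‖u (m + 1)‖ ^ 2)) := by gcongr
    _ = (J + 1) * ((η / K)⁻¹ ^ 2 * κ ^ 2) * ‖u (m + 1)‖ ^ 2 := by ring

end Flow

end Pool.Agent.K4H44.BLT
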