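import Pool.Agent.K4H44.BLT.TF

/-!
# The Fourier transform of a translation
-/

set_option autoImplicit false
set_option linter.unusedSectionVars false

noncomputable section

open MeasureTheory Filter Topology
open scoped ENNReal Real FourierTransform SchwartzMap

namespace Pool.Agent.K4H44.BLT

variable {l : ℕ}

theorem fourier_schwartz_sub (a : EuclideanSpace ℝ (Fin l)) (f : 𝓢(EuclideanSpace ℝ (Fin l), ℂ))
    (ξ : EuclideanSpace ℝ (Fin l)) :
    𝓕 (f.compSubConstCLM ℂ a) ξ =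
      Complex.exp ((2 * π * inner ℝ (-a) ξ : ℝ) * Complex.I) * 𝓕 f ξ := by
  rw [SchwartzMap.fourier_coe, SchwartzMap.fourier_coe, Real.fourier_eq', Real.fourier_eq',
    ← integral_sub_right_eq_self (fun v => Complex.exp (((-2 * π * inner ℝ v ξ : ℝ) : ℂ) *
      Complex.I) • f v) a, ← integral_const_mul]
  refine integral_congr_ae (Eventually.of_forall fun v => ?_)
  simp only [SchwartzMap.compSubConstCLM_apply, smul_eq_mul]
  rw [← mul_assoc, ← Complex.exp_add]
  congr 2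
  simp only [inner_sub_left, inner_neg_left]
  push_cast
  ring

theorem fourier_tf (a : EuclideanSpace ℝ (Fin l))
    (f : Lp ℂ 2 (volume : Measure (EuclideanSpace ℝ (Fin l)))) :
    Lp.fourierTransformₗᵢ (EuclideanSpace ℝ (Fin l)) ℂ (tf a 0 f) =
      tf 0 (-a) (Lp.fourierTransformₗᵢ (EuclideanSpace ℝ (Fin l)) ℂ f) := by
  have hd := SchwartzMap.denseRange_toLpCLM (E := EuclideanSpace ℝ (Fin l)) (F := ℂ)
    (p := 2) (μ := volume) ENNReal.ofNat_ne_top
  refine hd.induction_on (p := fun f => Lp.fourierTransformₗᵢ (EuclideanSpace ℝ (Fin l)) ℂ (tf a 0 f) =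
      tf 0 (-a) (Lp.fourierTransformₗᵢ (EuclideanSpace ℝ (Fin l)) ℂ f)) f ?_ ?_
  · exact isClosed_eq ((LinearIsometryEquiv.continuous _).comp (LinearIsometry.continuous _))
      ((LinearIsometry.continuous _).comp (LinearIsometryEquiv.continuous _))
  · intro f
    change Lp.fourierTransformₗᵢ (EuclideanSpace ℝ (Fin l)) ℂ (tf a 0 (f.toLp 2)) =
      tf 0 (-a) (Lp.fourierTransformₗᵢ (EuclideanSpace ℝ (Fin l)) ℂ (f.toLp 2))
    have e1 : tf a 0 (f.toLp 2) = (f.compSubConstCLM ℂ a).toLp 2 := by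
      refine Lp.ext ?_
      filter_upwards [coeFn_tf a 0 (f.toLp 2),
        ae_sub a (SchwartzMap.coeFn_toLp f 2 volume),
        SchwartzMap.coeFn_toLp (f.compSubConstCLM ℂ a) 2 volume] with x h1 h2 h3
      rw [h1, h3, tff, SchwartzMap.compSubConstCLM_apply, h2]
      simp
    have e2 : Lp.fourierTransformₗᵢ (EuclideanSpace ℝ (Fin l)) ℂ (f.toLp 2) = (𝓕 f).toLp 2 :=
      SchwartzMap.toLp_fourier_eq f
    have e3 : Lp.fourierTransformₗᵢ (EuclideanSpace ℝ (Fin l)) ℂ ((f.compSubConstCLM ℂ a).toLp 2) =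
        (𝓕 (f.compSubConstCLM ℂ a)).toLp 2 :=
      SchwartzMap.toLp_fourier_eq _
    rw [e1, e2, e3]
    refine Lp.ext ?_
    filter_upwards [coeFn_tf 0 (-a) ((𝓕 f).toLp 2),
        SchwartzMap.coeFn_toLp (𝓕 f) 2 volume,
        SchwartzMap.coeFn_toLp (𝓕 (f.compSubConstCLM ℂ a)) 2 volume] with x h1 h2 h3
    rw [h1, h3, tff, fourier_schwartz_sub, sub_zero, h2]

end Pool.Agent.K4H44.BLT
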