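import Pool.Agent.K4H44.BLT.Torus

/-!
# The representation of a symplectic lattice
-/

set_option autoImplicit false
set_option linter.unusedSectionVars false

noncomputable section

open MeasureTheory Filter Topology Matrix
open scoped ENNReal Real

namespace Pool.Agent.K4H44.BLT

variable {l : ℕ}

/-- The standard symplectic matrix. -/
def JJ (l : ℕ) : Matrix (Fin l ⊕ Fin l) (Fin l ⊕ Fin l) ℝ := Matrix.fromBlocks 0 1 (-1) 0

/-- A real matrix is symplectic. -/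
def IsSympl (M : Matrix (Fin l ⊕ Fin l) (Fin l ⊕ Fin l) ℝ) : Prop := Mᵀ * JJ l * M = JJ l

/-- The point of the lattice with integer coordinates `n`. -/
def pt (M : Matrix (Fin l ⊕ Fin l) (Fin l ⊕ Fin l) ℝ) (n : Fin l ⊕ Fin l → ℤ) :
    Fin l ⊕ Fin l → ℝ := M *ᵥ fun j => (n j : ℝ)

/-- The time component of a point of phase space. -/
def ft (z : Fin l ⊕ Fin l → ℝ) : EuclideanSpace ℝ (Fin l) :=
  WithLp.toLp 2 fun i => z (Sum.inl i)

/-- The frequency component of a point of phase space. -/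
def sd (z : Fin l ⊕ Fin l → ℝ) : EuclideanSpace ℝ (Fin l) :=
  WithLp.toLp 2 fun i => z (Sum.inr i)

theorem ft_add (z w : Fin l ⊕ Fin l → ℝ) : ft (z + w) = ft z + ft w := by
  ext i; simp [ft]

theorem sd_add (z w : Fin l ⊕ Fin l → ℝ) : sd (z + w) = sd z + sd w := by
  ext i; simp [sd]

theorem pt_add (M : Matrix (Fin l ⊕ Fin l) (Fin l ⊕ Fin l) ℝ) (n m : Fin l ⊕ Fin l → ℤ) :
    pt M (n + m) = pt M n + pt M m := by
  rw [pt, pt, pt, ← Matrix.mulVec_add]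
  congr 1
  funext j
  simp

theorem pt_zero (M : Matrix (Fin l ⊕ Fin l) (Fin l ⊕ Fin l) ℝ) : pt M 0 = 0 := by
  have : (fun j => (((0 : Fin l ⊕ Fin l → ℤ) j : ℤ) : ℝ)) = 0 := by
    funext j; simp
  rw [pt, this, Matrix.mulVec_zero]

theorem JJ_sq : JJ l * JJ l = -1 := by
  rw [JJ, Matrix.fromBlocks_multiply]
  simp [← Matrix.fromBlocks_one, Matrix.fromBlocks_neg]

theorem dot_JJ (x y : Fin l ⊕ Fin l → ℝ) :
    x ⬝ᵥ (JJ l *ᵥ y) = ∑ i, (x (Sum.inl i) * y (Sum.inr i) - x (Sum.inr i) * y (Sum.inl i)) := by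
  rw [dotProduct, Fintype.sum_sum_type, JJ, Matrix.fromBlocks_mulVec, Finset.sum_sub_distrib]
  simp [Matrix.neg_mulVec, sub_eq_add_neg]

theorem pt_injective {M : Matrix (Fin l ⊕ Fin l) (Fin l ⊕ Fin l) ℝ} (hM : IsSympl M) :
    Function.Injective (pt M) := by
  intro n m h
  have h1 : (-(JJ l * (Mᵀ * JJ l))) * M = 1 := by
    rw [neg_mul, mul_assoc, hM, JJ_sq, neg_neg]
  have h2 : (fun j => (n j : ℝ)) = fun j => (m j : ℝ) := by
    have h3 := congrArg (fun v => (-(JJ l * (Mᵀ * JJ l))) *ᵥ v) h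
    simp only [pt, Matrix.mulVec_mulVec, h1, Matrix.one_mulVec] at h3
    exact h3
  funext j
  exact_mod_cast congrFun h2 j

theorem inner_eq (z w : Fin l ⊕ Fin l → ℝ) :
    inner ℝ (ft z) (sd w) = ∑ i, z (Sum.inl i) * w (Sum.inr i) := by
  rw [PiLp.inner_apply]
  refine Finset.sum_congr rfl fun i _ => ?_
  simp [ft, sd, mul_comm]

theorem sympl_form {M : Matrix (Fin l ⊕ Fin l) (Fin l ⊕ Fin l) ℝ} (hM : IsSympl M)
    (n m : Fin l ⊕ Fin l → ℤ) :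
    inner ℝ (ft (pt M n)) (sd (pt M m)) - inner ℝ (ft (pt M m)) (sd (pt M n)) =
      ∑ i, ((n (Sum.inl i) : ℝ) * m (Sum.inr i) - (n (Sum.inr i) : ℝ) * m (Sum.inl i)) := by
  have h1 := dot_JJ (pt M n) (pt M m)
  have h2 := dot_JJ (fun j => (n j : ℝ)) (fun j => (m j : ℝ))
  have h3 : pt M n ⬝ᵥ (JJ l *ᵥ pt M m) =
      (fun j => (n j : ℝ)) ⬝ᵥ (JJ l *ᵥ (fun j => (m j : ℝ))) := by
    conv_rhs => rw [← hM]
    rw [pt, pt, ← Matrix.mulVec_mulVec, ← Matrix.mulVec_mulVec, Matrix.dotProduct_mulVec _ Mᵀ,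
      Matrix.vecMul_transpose]
  rw [h1, h2] at h3
  rw [inner_eq, inner_eq, ← h3, ← Finset.sum_sub_distrib]
  refine Finset.sum_congr rfl fun i _ => ?_
  ring

/-- The phase exponent. -/
def rr (M : Matrix (Fin l ⊕ Fin l) (Fin l ⊕ Fin l) ℝ) (n : Fin l ⊕ Fin l → ℤ) : ℝ :=
  ∑ i, (n (Sum.inl i) : ℝ) * n (Sum.inr i) - inner ℝ (ft (pt M n)) (sd (pt M n))

/-- The phase. -/
def ph (M : Matrix (Fin l ⊕ Fin l) (Fin l ⊕ Fin l) ℝ) (n : Fin l ⊕ Fin l → ℤ) : ℂ :=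
  Complex.exp ((π * rr M n : ℝ) * Complex.I)

theorem norm_ph (M : Matrix (Fin l ⊕ Fin l) (Fin l ⊕ Fin l) ℝ) (n : Fin l ⊕ Fin l → ℤ) :
    ‖ph M n‖ = 1 := Complex.norm_exp_ofReal_mul_I _

theorem rr_add {M : Matrix (Fin l ⊕ Fin l) (Fin l ⊕ Fin l) ℝ} (hM : IsSympl M)
    (n m : Fin l ⊕ Fin l → ℤ) :
    rr M (n + m) = rr M n + rr M m - 2 * inner ℝ (sd (pt M m)) (ft (pt M n)) +
      2 * ((∑ i, n (Sum.inl i) * m (Sum.inr i) : ℤ) : ℝ) := by
  have h1 := sympl_form hM n m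
  have h2 : ∑ i, (((n + m) (Sum.inl i) : ℤ) : ℝ) * ((n + m) (Sum.inr i) : ℤ) =
      ∑ i, (n (Sum.inl i) : ℝ) * n (Sum.inr i) + ∑ i, (m (Sum.inl i) : ℝ) * m (Sum.inr i) +
      ∑ i, (n (Sum.inl i) : ℝ) * m (Sum.inr i) + ∑ i, (n (Sum.inr i) : ℝ) * m (Sum.inl i) := by
    rw [← Finset.sum_add_distrib, ← Finset.sum_add_distrib, ← Finset.sum_add_distrib]
    refine Finset.sum_congr rfl fun i _ => ?_
    simp only [Pi.add_apply]
    push_cast
    ring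
  rw [Finset.sum_sub_distrib] at h1
  rw [rr, h2, pt_add, ft_add, sd_add, inner_add_left, inner_add_right, inner_add_right, rr, rr,
    real_inner_comm (ft (pt M n)) (sd (pt M m))]
  push_cast
  linarith

/-- The representation. -/
def rho (M : Matrix (Fin l ⊕ Fin l) (Fin l ⊕ Fin l) ℝ) (n : Fin l ⊕ Fin l → ℤ) :
    Lp ℂ 2 (volume : Measure (EuclideanSpace ℝ (Fin l))) →L[ℂ]
      Lp ℂ 2 (volume : Measure (EuclideanSpace ℝ (Fin l))) :=
  ph M n • (tf (ft (pt M n)) (sd (pt M n))).toContinuousLinearMap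

theorem rho_apply (M : Matrix (Fin l ⊕ Fin l) (Fin l ⊕ Fin l) ℝ) (n : Fin l ⊕ Fin l → ℤ)
    (f : Lp ℂ 2 (volume : Measure (EuclideanSpace ℝ (Fin l)))) :
    rho M n f = ph M n • tf (ft (pt M n)) (sd (pt M n)) f := rfl

theorem rho_rho {M : Matrix (Fin l ⊕ Fin l) (Fin l ⊕ Fin l) ℝ} (hM : IsSympl M)
    (n m : Fin l ⊕ Fin l → ℤ) (f : Lp ℂ 2 (volume : Measure (EuclideanSpace ℝ (Fin l)))) :
    rho M n (rho M m f) = rho M (n + m) f := by
  rw [rho_apply, rho_apply, rho_apply, map_smul, tf_tf, smul_smul, smul_smul, pt_add, ft_add,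
    sd_add]
  congr 1
  rw [ph, ph, ph, ← Complex.exp_add, ← Complex.exp_add, rr_add hM, Complex.exp_eq_exp_iff_exists_int]
  refine ⟨-(∑ i, n (Sum.inl i) * m (Sum.inr i)), ?_⟩
  push_cast
  ring

theorem rho_zero (M : Matrix (Fin l ⊕ Fin l) (Fin l ⊕ Fin l) ℝ)
    (f : Lp ℂ 2 (volume : Measure (EuclideanSpace ℝ (Fin l)))) : rho M 0 f = f := by
  have h1 : ft (0 : Fin l ⊕ Fin l → ℝ) = 0 := by ext i; simp [ft]
  have h2 : sd (0 : Fin l ⊕ Fin l → ℝ) = 0 := by ext i; simp [sd]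
  rw [rho_apply, ph, rr, pt_zero, h1, h2, tf_zero]
  simp

end Pool.Agent.K4H44.BLT
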