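import Pool.Agent.K4H44.BLT.Lattice

/-!
# The uncertainty principle for symplectic lattices
-/

set_option autoImplicit false
set_option linter.unusedSectionVars false

noncomputable section

open MeasureTheory Filter Topology Matrix
open scoped ENNReal Real

namespace Pool.Agent.K4H44.BLT

/-- The Haar probability measure on the circle. -/
local instance : MeasureSpace UnitAddCircle := ⟨AddCircle.haarAddCircle⟩

local instance : Measure.IsAddHaarMeasure (volume : Measure UnitAddCircle) :=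
  inferInstanceAs (Measure.IsAddHaarMeasure AddCircle.haarAddCircle)

local instance : IsProbabilityMeasure (volume : Measure UnitAddCircle) :=
  inferInstanceAs (IsProbabilityMeasure AddCircle.haarAddCircle)

/-- A family of vectors is a Riesz basis if it is the image of an orthonormal basis under a
bounded invertible operator. -/
def IsRiesz {ι H : Type*} [NormedAddCommGroup H] [InnerProductSpace ℂ H] (v : ι → H) : Prop :=
  ∃ (b : HilbertBasis ι ℂ H) (A : H ≃L[ℂ] H), ∀ i, v i = A (b i)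

variable {l : ℕ}

theorem tf_comm (a b a' b' : EuclideanSpace ℝ (Fin l))
    (f : Lp ℂ 2 (volume : Measure (EuclideanSpace ℝ (Fin l)))) :
    tf a b (tf a' b' f) =
      Complex.exp ((2 * π * (inner ℝ b a' - inner ℝ b' a) : ℝ) * Complex.I) •
        tf a' b' (tf a b f) := by
  rw [tf_tf, tf_tf, smul_smul, ← Complex.exp_add, add_comm a' a, add_comm b' b]
  congr 2
  push_cast
  ring

/-- The synthesis operator. -/
theorem exists_synth {M : Matrix (Fin l ⊕ Fin l) (Fin l ⊕ Fin l) ℝ} (hM : IsSympl M)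
    (g : Lp ℂ 2 (volume : Measure (EuclideanSpace ℝ (Fin l))))
    (hg : IsRiesz fun z : Set.range (pt M) => tf (ft (z : Fin l ⊕ Fin l → ℝ)) (sd z) g) :
    ∃ V : Lp ℂ 2 (μT (Fin l ⊕ Fin l)) ≃L[ℂ] Lp ℂ 2 (volume : Measure (EuclideanSpace ℝ (Fin l))),
      ∀ n, V (UnitAddTorus.mFourierLp 2 n) = rho M n g := by
  classical
  obtain ⟨b, A, hA⟩ := hg
  let φ : (Fin l ⊕ Fin l → ℤ) → Set.range (pt M) := fun n => ⟨pt M n, n, rfl⟩
  have hφ : Function.Injective φ := fun n m h => pt_injective hM (congrArg Subtype.val h)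
  have hph : ∀ n, ph M n ≠ 0 := fun n h => by
    have := norm_ph M n
    rw [h, norm_zero] at this
    exact zero_ne_one this
  have hb : Orthonormal ℂ fun n => ph M n • b (φ n) := by
    have h1 := b.orthonormal.comp φ hφ
    rw [orthonormal_iff_ite] at h1 ⊢
    intro n m
    have h2 : inner ℂ (b (φ n)) (b (φ m)) = if n = m then (1 : ℂ) else 0 := h1 n m
    rw [inner_smul_left, inner_smul_right, h2]
    split_ifs with h
    · subst h
      rw [mul_one, Complex.conj_mul', norm_ph]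
      simp
    · simp
  have hsp : ⊤ ≤ (Submodule.span ℂ (Set.range fun n => ph M n • b (φ n))).topologicalClosure := by
    have h1 : Submodule.span ℂ (Set.range b) ≤
        Submodule.span ℂ (Set.range fun n => ph M n • b (φ n)) := by
      rw [Submodule.span_le]
      rintro _ ⟨⟨_, n, rfl⟩, rfl⟩
      have h2 : b ⟨pt M n, n, rfl⟩ = (ph M n)⁻¹ • (ph M n • b (φ n)) := by
        rw [smul_smul, inv_mul_cancel₀ (hph n), one_smul]
      rw [h2]
      exact Submodule.smul_mem _ _ (Submodule.subset_span ⟨n, rfl⟩)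
    rw [← b.dense_span]
    exact Submodule.topologicalClosure_mono h1
  let b' := HilbertBasis.mk hb hsp
  refine ⟨(UnitAddTorus.mFourierBasis.repr.trans b'.repr.symm).toContinuousLinearEquiv.trans A,
    fun n => ?_⟩
  have e1 : (UnitAddTorus.mFourierBasis (d := Fin l ⊕ Fin l)).repr (UnitAddTorus.mFourierLp 2 n) =
      lp.single 2 n (1 : ℂ) := by
    rw [← UnitAddTorus.coe_mFourierBasis]
    exact HilbertBasis.repr_self _ n
  have e2 : b'.repr.symm (lp.single 2 n (1 : ℂ)) = ph M n • b (φ n) := by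
    rw [HilbertBasis.repr_symm_single]
    exact congrFun (HilbertBasis.coe_mk hb hsp) n
  change A (b'.repr.symm (UnitAddTorus.mFourierBasis.repr (UnitAddTorus.mFourierLp 2 n))) = _
  rw [e1, e2, map_smul, ← hA]
  rfl

/-- The one-parameter group in the direction `(a, b)`. -/
def fl (a b : EuclideanSpace ℝ (Fin l)) (s : ℝ) :
    Lp ℂ 2 (volume : Measure (EuclideanSpace ℝ (Fin l))) →L[ℂ]
      Lp ℂ 2 (volume : Measure (EuclideanSpace ℝ (Fin l))) :=
  (tf (s • a) (s • b)).toContinuousLinearMap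

theorem fl_apply (a b : EuclideanSpace ℝ (Fin l)) (s : ℝ)
    (f : Lp ℂ 2 (volume : Measure (EuclideanSpace ℝ (Fin l)))) :
    fl a b s f = tf (s • a) (s • b) f := rfl

theorem flow_fl {M : Matrix (Fin l ⊕ Fin l) (Fin l ⊕ Fin l) ℝ} (hM : IsSympl M)
    (g : Lp ℂ 2 (volume : Measure (EuclideanSpace ℝ (Fin l))))
    (V : Lp ℂ 2 (μT (Fin l ⊕ Fin l)) ≃L[ℂ] Lp ℂ 2 (volume : Measure (EuclideanSpace ℝ (Fin l))))
    (hV : ∀ n, V (UnitAddTorus.mFourierLp 2 n) = rho M n g)
    (a b : EuclideanSpace ℝ (Fin l)) (hab : inner ℝ b a = 0) :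
    ∃ y K, Flow V (UnitAddTorus.mFourierLp 2 0) (fl a b) y K := by
  classical
  have hcol : ∀ n : Fin l ⊕ Fin l → ℤ, inner ℝ b (ft (pt M n)) - inner ℝ (sd (pt M n)) a =
      ∑ j, (n j : ℝ) * (inner ℝ b (ft (pt M (Pi.single j 1))) -
        inner ℝ (sd (pt M (Pi.single j 1))) a) := by
    let c : (Fin l ⊕ Fin l → ℤ) →+ ℝ :=
      { toFun := fun n => inner ℝ b (ft (pt M n)) - inner ℝ (sd (pt M n)) a
        map_zero' := by
          have h1 : ft (0 : Fin l ⊕ Fin l → ℝ) = 0 := by ext i; simp [ft]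
          have h2 : sd (0 : Fin l ⊕ Fin l → ℝ) = 0 := by ext i; simp [sd]
          rw [pt_zero, h1, h2]
          simp
        map_add' := fun n m => by
          rw [pt_add, ft_add, sd_add, inner_add_left, inner_add_right]
          ring }
    intro n
    change c n = ∑ j, (n j : ℝ) * c (Pi.single j 1)
    have h1 : n = ∑ j, n j • (Pi.single j (1 : ℤ) : Fin l ⊕ Fin l → ℤ) := by
      funext i
      simp [Finset.sum_apply, Pi.single_apply]
    conv_lhs => rw [h1]
    rw [map_sum]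
    refine Finset.sum_congr rfl fun j _ => ?_
    rw [map_zsmul, zsmul_eq_mul]
  refine ⟨_, _, flow_of_rho V g (rho M) (rho_rho hM) (rho_zero M g) hV (fl a b)
    (fun j => inner ℝ b (ft (pt M (Pi.single j 1))) -
        inner ℝ (sd (pt M (Pi.single j 1))) a) ?_ ?_ ?_ ?_⟩
  · intro f
    rw [fl_apply, zero_smul, zero_smul, tf_zero]
  · intro s s' f
    rw [fl_apply, fl_apply, fl_apply, tf_tf, add_smul, add_smul, inner_smul_left, inner_smul_right,
      hab]
    simp
  · intro s f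
    exact (LinearIsometry.norm_map _ _).le
  · intro s n f
    rw [fl_apply, rho_apply, map_smul, tf_comm, smul_comm, ← hcol, fl_apply, rho_apply]
    congr 3
    rw [inner_smul_left, inner_smul_right]
    simp only [conj_trivial]
    push_cast
    ring

/-- The coordinate direction. -/
def ek (k : Fin l) : EuclideanSpace ℝ (Fin l) := EuclideanSpace.single k 1

theorem mult_mod (k : Fin l) : Mult (LinearIsometry.id (R := ℂ)
    (E := Lp ℂ 2 (volume : Measure (EuclideanSpace ℝ (Fin l))))) (fun x => x k)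
    (fl (0 : EuclideanSpace ℝ (Fin l)) (ek k)) where
  meas := by fun_prop
  eq s f := by
    change (fl (0 : EuclideanSpace ℝ (Fin l)) (ek k) s f : EuclideanSpace ℝ (Fin l) → ℂ)
      =ᵐ[volume] _
    rw [fl_apply, smul_zero]
    filter_upwards [coeFn_tf 0 (s • ek k) f] with x hx
    rw [hx, tff, sub_zero, ek, inner_smul_left, EuclideanSpace.inner_single_left]
    simp [mul_assoc]

theorem mult_trans (k : Fin l) (r : ℝ) :
    Mult (Lp.fourierTransformₗᵢ (EuclideanSpace ℝ (Fin l)) ℂ).toLinearIsometry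
    (fun x => -(r * x k)) (fl (r • ek k) (0 : EuclideanSpace ℝ (Fin l))) where
  meas := by fun_prop
  eq s f := by
    change (Lp.fourierTransformₗᵢ (EuclideanSpace ℝ (Fin l)) ℂ
      (fl (r • ek k) (0 : EuclideanSpace ℝ (Fin l)) s f) : EuclideanSpace ℝ (Fin l) → ℂ)
      =ᵐ[volume] fun x => _ * (Lp.fourierTransformₗᵢ (EuclideanSpace ℝ (Fin l)) ℂ f :
        EuclideanSpace ℝ (Fin l) → ℂ) x
    rw [fl_apply, smul_zero, fourier_tf]
    filter_upwards [coeFn_tf 0 (-(s • r • ek k))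
      (Lp.fourierTransformₗᵢ (EuclideanSpace ℝ (Fin l)) ℂ f)] with x hx
    rw [hx, tff, sub_zero, ek, inner_neg_left, inner_smul_left, inner_smul_left,
      EuclideanSpace.inner_single_left]
    simp [mul_assoc]

/-- The nonsymmetric uncertainty principle for the Gabor systems over symplectic lattices. -/
theorem main {M : Matrix (Fin l ⊕ Fin l) (Fin l ⊕ Fin l) ℝ} (hM : IsSympl M)
    (g : Lp ℂ 2 (volume : Measure (EuclideanSpace ℝ (Fin l))))
    (hg : IsRiesz fun z : Set.range (pt M) => tf (ft (z : Fin l ⊕ Fin l → ℝ)) (sd z) g)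
    (k : Fin l) :
    (∀ p q : ℝ, 1 < p → 1 / p + 1 / q = 1 →
      ∫⁻ x, ENNReal.ofReal (|x k| ^ p) * ‖g x‖ₑ ^ 2 = ∞ ∨
      ∫⁻ ξ, ENNReal.ofReal (|ξ k| ^ q) *
        ‖Lp.fourierTransformₗᵢ (EuclideanSpace ℝ (Fin l)) ℂ g ξ‖ₑ ^ 2 = ∞) ∧
    ((∃ K : Set (EuclideanSpace ℝ (Fin l)), IsCompact K ∧ ∀ᵐ x, x ∉ K → g x = 0) →
      ∫⁻ ξ, ENNReal.ofReal |ξ k| *
        ‖Lp.fourierTransformₗᵢ (EuclideanSpace ℝ (Fin l)) ℂ g ξ‖ₑ ^ 2 = ∞) ∧
    ((∃ K : Set (EuclideanSpace ℝ (Fin l)), IsCompact K ∧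
        ∀ᵐ ξ, ξ ∉ K → Lp.fourierTransformₗᵢ (EuclideanSpace ℝ (Fin l)) ℂ g ξ = 0) →
      ∫⁻ x, ENNReal.ofReal |x k| * ‖g x‖ₑ ^ 2 = ∞) := by
  obtain ⟨V, hV⟩ := exists_synth hM g hg
  have hone : V (UnitAddTorus.mFourierLp 2 0) = g := by rw [hV, rho_zero]
  obtain ⟨y1, K1, F1⟩ := flow_fl hM g V hV (0 : EuclideanSpace ℝ (Fin l)) (ek k) (by simp)
  obtain ⟨y2, K2, F2⟩ := flow_fl hM g V hV ((1 : ℝ) • ek k) (0 : EuclideanSpace ℝ (Fin l)) (by simp)
  obtain ⟨y3, K3, F3⟩ := flow_fl hM g V hV ((-1 : ℝ) • ek k) (0 : EuclideanSpace ℝ (Fin l)) (by simp)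
  have M1 := mult_mod (l := l) k
  have M2 := mult_trans (l := l) k 1
  have M3 := mult_trans (l := l) k (-1)
  have hek : inner ℝ (ek k) (ek k) = 1 := by
    rw [ek, EuclideanSpace.inner_single_left]; simp
  have C12 : ∀ s t f, fl (0 : EuclideanSpace ℝ (Fin l)) (ek k) s
      (fl ((1 : ℝ) • ek k) (0 : EuclideanSpace ℝ (Fin l)) t f) =
      Complex.exp ((2 * π * s * t : ℝ) * Complex.I) •
        fl ((1 : ℝ) • ek k) (0 : EuclideanSpace ℝ (Fin l)) t
          (fl (0 : EuclideanSpace ℝ (Fin l)) (ek k) s f) := by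
    intro s t f
    rw [fl_apply, fl_apply, fl_apply, fl_apply, tf_comm]
    congr 3
    rw [inner_smul_left, inner_smul_right, one_smul, hek]
    simp
    ring
  have C31 : ∀ s t f, fl ((-1 : ℝ) • ek k) (0 : EuclideanSpace ℝ (Fin l)) s
      (fl (0 : EuclideanSpace ℝ (Fin l)) (ek k) t f) =
      Complex.exp ((2 * π * s * t : ℝ) * Complex.I) •
        fl (0 : EuclideanSpace ℝ (Fin l)) (ek k) t
          (fl ((-1 : ℝ) • ek k) (0 : EuclideanSpace ℝ (Fin l)) s f) := by
    intro s t f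
    rw [fl_apply, fl_apply, fl_apply, fl_apply, tf_comm]
    congr 3
    rw [smul_zero, inner_zero_left, real_inner_smul_left, real_inner_smul_right,
      real_inner_smul_right, hek]
    push_cast
    ring
  have L1 : ∀ p : ℝ, 0 < p → ∫⁻ x, ENNReal.ofReal (|x k| ^ p) * ‖g x‖ₑ ^ 2 ≠ ∞ →
      Tendsto (fun s : ℝ => ((μT (Fin l ⊕ Fin l)) (badSet V (UnitAddTorus.mFourierLp 2 0)
        (fl (0 : EuclideanSpace ℝ (Fin l)) (ek k)) s)).toReal / s ^ p) (𝓝[>] 0) (𝓝 0) := by
    intro p hp h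
    refine bad_little_o F1 M1 hp ?_
    rw [hone]
    exact h
  have L2 : ∀ p : ℝ, 0 < p → ∫⁻ ξ, ENNReal.ofReal (|ξ k| ^ p) *
        ‖Lp.fourierTransformₗᵢ (EuclideanSpace ℝ (Fin l)) ℂ g ξ‖ₑ ^ 2 ≠ ∞ →
      Tendsto (fun s : ℝ => ((μT (Fin l ⊕ Fin l)) (badSet V (UnitAddTorus.mFourierLp 2 0)
        (fl ((1 : ℝ) • ek k) (0 : EuclideanSpace ℝ (Fin l))) s)).toReal / s ^ p)
        (𝓝[>] 0) (𝓝 0) := by
    intro p hp h
    refine bad_little_o F2 M2 hp ?_
    rw [hone]
    simp only [one_mul, abs_neg]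
    exact h
  refine ⟨?_, ?_, ?_⟩
  · intro p q hp hpq
    by_contra hcon
    rw [not_or] at hcon
    have hp0 : 0 < p := by linarith
    have hq0 : 0 < q := by
      have h3 : 0 < 1 / q := by
        have : 1 / p < 1 := by rw [div_lt_one hp0]; exact hp
        linarith
      exact one_div_pos.1 h3
    exact no_pq F1 F2 C12 hp hpq (L1 p hp0 hcon.1) (L2 q hq0 hcon.2)
  · rintro ⟨K, hK, hsupp⟩
    by_contra hcon
    obtain ⟨R, hR⟩ := hK.isBounded.exists_norm_le
    have h1 : ∀ᵐ x, max R 1 < |x k| → LinearIsometry.id (R := ℂ)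
        (V (UnitAddTorus.mFourierLp 2 0)) x = 0 := by
      rw [hone]
      filter_upwards [hsupp] with x hx hxk
      refine hx fun hxK => ?_
      have h2 := hR x hxK
      have h3 : |x k| ≤ ‖x‖ := by
        have := PiLp.norm_apply_le x k
        rwa [Real.norm_eq_abs] at this
      have h4 := le_max_left R 1
      linarith
    obtain ⟨s, hs, hbad⟩ := F1.bad_null M1 (by positivity) h1
    refine no_one F1 F2 C12 hs hbad (L2 1 one_pos ?_)
    simpa only [Real.rpow_one] using hcon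
  · rintro ⟨K, hK, hsupp⟩
    by_contra hcon
    obtain ⟨R, hR⟩ := hK.isBounded.exists_norm_le
    have h1 : ∀ᵐ x : EuclideanSpace ℝ (Fin l), max R 1 < |(-(-1 * x k))| →
        (Lp.fourierTransformₗᵢ (EuclideanSpace ℝ (Fin l)) ℂ).toLinearIsometry
        (V (UnitAddTorus.mFourierLp 2 0)) x = 0 := by
      rw [hone]
      filter_upwards [hsupp] with x hx hxk
      refine hx fun hxK => ?_
      have h2 := hR x hxK
      have h3 : |x k| ≤ ‖x‖ := by
        have := PiLp.norm_apply_le x k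
        rwa [Real.norm_eq_abs] at this
      have h4 := le_max_left R 1
      rw [neg_one_mul, neg_neg] at hxk
      linarith
    obtain ⟨s, hs, hbad⟩ := F3.bad_null M3 (by positivity) h1
    refine no_one F3 F1 C31 hs hbad (L1 1 one_pos ?_)
    simpa only [Real.rpow_one] using hcon

end Pool.Agent.K4H44.BLT
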