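import Mathlib

/-!
# A discrete inequality for bounded sequences with small differences of high order
-/

set_option autoImplicit false

namespace Pool.Agent.K4H44.BLT

/-- The difference operator. -/
def D (a : ℕ → ℂ) : ℕ → ℂ := fun i => a (i + 1) - a i

theorem D_shift (a : ℕ → ℂ) (m r : ℕ) : D^[m] (fun i => a (i + r)) = fun i => D^[m] a (i + r) := by
  induction m generalizing a with
  | zero => rfl
  | succ m ih =>
    rw [Function.iterate_succ, Function.comp_apply, Function.comp_apply]
    have : D (fun i => a (i + r)) = fun i => (D a) (i + r) := by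
      funext i
      simp only [D]
      congr 2
      ring
    rw [this, ih]

/-- A bounded sequence with small differences of order `m ≥ 1` has small first differences. -/
theorem markov (m : ℕ) : ∀ K δ : ℝ, 0 ≤ K → 0 < δ → ∃ J : ℕ, ∃ η : ℝ, 0 < η ∧
    ∀ a : ℕ → ℂ, (∀ i, ‖a i‖ ≤ K) → (∀ i, i ≤ J → ‖D^[m + 1] a i‖ ≤ η) → ‖a 1 - a 0‖ ≤ δ := by
  induction m with
  | zero =>
    intro K δ _ hδ
    refine ⟨0, δ, hδ, fun a _ h => ?_⟩
    simpa [D] using h 0 le_rfl
  | succ m ih =>
    intro K δ hK hδ
    obtain ⟨n, hn⟩ := exists_nat_gt (4 * K / δ)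
    have hn0 : 0 < n := by
      have : (0 : ℝ) < n := lt_of_le_of_lt (by positivity) hn
      exact_mod_cast this
    have hn0' : (0 : ℝ) < n := by exact_mod_cast hn0
    obtain ⟨J, η, hη, h⟩ := ih (2 * K) (δ / (2 * n)) (by positivity) (by positivity)
    refine ⟨J + n, η, hη, fun a ha hD => ?_⟩
    have h1 : ∀ r, r < n → ‖D (D a) r‖ ≤ δ / (2 * n) := by
      intro r hr
      have h2 := h (fun i => D a (i + r)) (fun i => ?_) (fun i hi => ?_)
      · simpa [D, add_comm] using h2
      · calc ‖D a (i + r)‖ ≤ ‖a (i + r + 1)‖ + ‖a (i + r)‖ := norm_sub_le _ _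
          _ ≤ 2 * K := by linarith [ha (i + r + 1), ha (i + r)]
      · rw [D_shift]
        have h3 := hD (i + r) (by omega)
        rwa [Function.iterate_succ, Function.comp_apply] at h3
    have h2 : ∀ r, r ≤ n → ‖D a r - D a 0‖ ≤ r * (δ / (2 * n)) := by
      intro r
      induction r with
      | zero => intro _; simp
      | succ r ihr =>
        intro hr
        have e : D a (r + 1) - D a 0 = D (D a) r + (D a r - D a 0) := by simp only [D]; ring
        rw [e]
        calc ‖D (D a) r + (D a r - D a 0)‖ ≤ ‖D (D a) r‖ + ‖D a r - D a 0‖ := norm_add_le _ _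
          _ ≤ δ / (2 * n) + r * (δ / (2 * n)) := add_le_add (h1 r (by omega)) (ihr (by omega))
          _ = (r + 1 : ℕ) * (δ / (2 * n)) := by push_cast; ring
    have h3 : ∀ r, r ≤ n → ‖a r - a 0 - r * D a 0‖ ≤ r * (δ / 2) := by
      intro r
      induction r with
      | zero => intro _; simp
      | succ r ihr =>
        intro hr
        have e : a (r + 1) - a 0 - ((r + 1 : ℕ) : ℂ) * D a 0
            = (D a r - D a 0) + (a r - a 0 - r * D a 0) := by
          simp only [D]; push_cast; ring
        rw [e]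
        have h4 : ‖D a r - D a 0‖ ≤ δ / 2 := by
          refine (h2 r (by omega)).trans ?_
          have h5 : (r : ℝ) ≤ n := by exact_mod_cast (by omega : r ≤ n)
          calc (r : ℝ) * (δ / (2 * n)) ≤ n * (δ / (2 * n)) := by gcongr
            _ = δ / 2 := by field_simp
        calc ‖(D a r - D a 0) + (a r - a 0 - r * D a 0)‖
            ≤ ‖D a r - D a 0‖ + ‖a r - a 0 - r * D a 0‖ := norm_add_le _ _
          _ ≤ δ / 2 + r * (δ / 2) := add_le_add h4 (ihr (by omega))
          _ = (r + 1 : ℕ) * (δ / 2) := by push_cast; ring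
    have h4 := h3 n le_rfl
    have h5 : ‖(n : ℂ) * D a 0‖ ≤ 2 * K + n * (δ / 2) := by
      have e : (n : ℂ) * D a 0 = (a n - a 0) - (a n - a 0 - n * D a 0) := by ring
      rw [e]
      calc ‖(a n - a 0) - (a n - a 0 - n * D a 0)‖
          ≤ ‖a n - a 0‖ + ‖a n - a 0 - n * D a 0‖ := norm_sub_le _ _
        _ ≤ (‖a n‖ + ‖a 0‖) + n * (δ / 2) := add_le_add (norm_sub_le _ _) h4
        _ ≤ 2 * K + n * (δ / 2) := by linarith [ha n, ha 0]
    rw [norm_mul, Complex.norm_natCast] at h5
    have h6 : 4 * K < n * δ := by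
      rw [div_lt_iff₀ hδ] at hn
      linarith
    have h7 : (n : ℝ) * ‖D a 0‖ ≤ n * δ := by linarith
    have h8 := le_of_mul_le_mul_left h7 hn0'
    simpa [D] using h8

end Pool.Agent.K4H44.BLT
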