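import Pool.Agent.K4H44.BLT.Defect

/-!
# Moments and iterated differences
-/

set_option autoImplicit false
set_option linter.unusedSectionVars false

noncomputable section

open MeasureTheory Filter Topology
open scoped ENNReal Real

namespace Pool.Agent.K4H44.BLT

section mult

variable {E : Type*} [MeasurableSpace E] {ν : Measure E}
  {H : Type*} [NormedAddCommGroup H] [NormedSpace ℂ H]

/-- `M` is, in the representation `W`, multiplication with `exp (2 π i s φ)`. -/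
structure Mult (W : H →ₗᵢ[ℂ] Lp ℂ 2 ν) (φ : E → ℝ) (M : ℝ → H →L[ℂ] H) : Prop where
  meas : Measurable φ
  eq : ∀ s f, W (M s f) =ᵐ[ν] fun x => Complex.exp ((2 * π * s * φ x : ℝ) * Complex.I) * W f x

variable {W : H →ₗᵢ[ℂ] Lp ℂ 2 ν} {φ : E → ℝ} {M : ℝ → H →L[ℂ] H}

theorem Mult.iter (hM : Mult W φ M) (s : ℝ) (g : H) (m : ℕ) :
    W ((fun f => M s f - f)^[m] g) =ᵐ[ν]
      fun x => (Complex.exp ((2 * π * s * φ x : ℝ) * Complex.I) - 1) ^ m * W g x := by
  induction m with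
  | zero => exact Eventually.of_forall fun x => by simp
  | succ m ih =>
    rw [Function.iterate_succ_apply']
    set u := (fun f => M s f - f)^[m] g with hu
    have h1 := hM.eq s u
    have h2 := Lp.coeFn_sub (W (M s u)) (W u)
    rw [← map_sub] at h2
    filter_upwards [ih, h1, h2] with x e1 e2 e3
    rw [e3, Pi.sub_apply, e2, e1]
    ring

theorem norm_exp_sub_one_le (θ : ℝ) (m : ℕ) {p : ℝ} (hp : 0 < p) (hm : p ≤ 2 * m) :
    ‖Complex.exp (θ * Complex.I) - 1‖ ^ (2 * m) ≤ 2 ^ (2 * m) * |θ| ^ p := by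
  have h1 : ‖Complex.exp (θ * Complex.I) - 1‖ ≤ |θ| := by
    have := Real.norm_exp_I_mul_ofReal_sub_one_le (x := θ)
    rwa [mul_comm, Real.norm_eq_abs] at this
  have h2 : ‖Complex.exp (θ * Complex.I) - 1‖ ≤ 2 := by
    calc ‖Complex.exp (θ * Complex.I) - 1‖ ≤ ‖Complex.exp (θ * Complex.I)‖ + ‖(1 : ℂ)‖ :=
          norm_sub_le _ _
      _ = 2 := by rw [Complex.norm_exp_ofReal_mul_I, norm_one]; norm_num
  have h3 : ‖Complex.exp (θ * Complex.I) - 1‖ ≤ 2 * min 1 |θ| := by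
    rcases le_total 1 |θ| with h | h
    · rw [min_eq_left h]; linarith
    · rw [min_eq_right h]; linarith [abs_nonneg θ]
  have h4 : (min 1 |θ|) ^ (2 * m) ≤ |θ| ^ p := by
    have h5 : 0 ≤ min 1 |θ| := le_min zero_le_one (abs_nonneg _)
    calc (min 1 |θ|) ^ (2 * m) = (min 1 |θ|) ^ ((2 * m : ℕ) : ℝ) := (Real.rpow_natCast _ _).symm
      _ ≤ (min 1 |θ|) ^ p := by
          rcases h5.eq_or_lt with h6 | h6
          · rw [← h6]
            have hm0 : ((2 * m : ℕ) : ℝ) ≠ 0 := by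
              push_cast
              intro h0
              rw [h0] at hm
              linarith
            rw [Real.zero_rpow hm0, Real.zero_rpow hp.ne']
          · exact Real.rpow_le_rpow_of_exponent_ge h6 (min_le_left _ _) (by push_cast; exact hm)
      _ ≤ |θ| ^ p := Real.rpow_le_rpow h5 (min_le_right _ _) hp.le
  calc ‖Complex.exp (θ * Complex.I) - 1‖ ^ (2 * m) ≤ (2 * min 1 |θ|) ^ (2 * m) :=
        pow_le_pow_left₀ (norm_nonneg _) h3 _
    _ = 2 ^ (2 * m) * (min 1 |θ|) ^ (2 * m) := mul_pow _ _ _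
    _ ≤ 2 ^ (2 * m) * |θ| ^ p := by gcongr

theorem norm_sq_eq (f : Lp ℂ 2 ν) : ‖f‖ ^ 2 = ∫ x, ‖f x‖ ^ 2 ∂ν := by
  have h1 := L2.inner_def (𝕜 := ℂ) f f
  have h2 : (inner ℂ f f : ℂ) = ((‖f‖ ^ 2 : ℝ) : ℂ) := by
    rw [inner_self_eq_norm_sq_to_K]; simp
  rw [h2] at h1
  have h3 : ∀ x, (inner ℂ (f x) (f x) : ℂ) = ((‖f x‖ ^ 2 : ℝ) : ℂ) := by
    intro x
    rw [inner_self_eq_norm_sq_to_K]; simp
  simp only [h3] at h1
  rw [integral_complex_ofReal] at h1
  exact_mod_cast h1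

/-- If the moment of order `p` is finite then the differences of order `m > p / 2` are `o(s^(p/2))`. -/
theorem Mult.moment (hM : Mult W φ M) (g : H) {p : ℝ} (hp : 0 < p) (m : ℕ) (hm : p < 2 * m)
    (hfin : ∫⁻ x, ENNReal.ofReal (|φ x| ^ p) * ‖W g x‖ₑ ^ 2 ∂ν ≠ ∞) :
    Tendsto (fun s : ℝ => ‖(fun f => M s f - f)^[m] g‖ ^ 2 / s ^ p) (𝓝[>] 0) (𝓝 0) := by
  set f : Lp ℂ 2 ν := W g with hf
  have hfm : Measurable f := (Lp.stronglyMeasurable f).measurable
  have hφ := hM.meas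
  -- integrability of the dominating function
  have hint0 : Integrable (fun x => |φ x| ^ p * ‖f x‖ ^ 2) ν := by
    refine ⟨((hφ.abs.pow_const p).mul (hfm.norm.pow_const 2)).aestronglyMeasurable, ?_⟩
    rw [hasFiniteIntegral_iff_enorm]
    refine lt_of_le_of_lt (le_of_eq ?_) hfin.lt_top
    refine lintegral_congr fun x => ?_
    rw [enorm_mul, Real.enorm_eq_ofReal (by positivity), enorm_pow, enorm_norm]
  have h1 : Tendsto (fun s : ℝ => ∫ x, ‖Complex.exp ((2 * π * s * φ x : ℝ) * Complex.I) - 1‖ ^ (2 * m) /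
      s ^ p * ‖f x‖ ^ 2 ∂ν) (𝓝[>] 0) (𝓝 (∫ x, (0 : ℝ) ∂ν)) := by
    refine tendsto_integral_filter_of_dominated_convergence
      (fun x => 2 ^ (2 * m) * (2 * π) ^ p * (|φ x| ^ p * ‖f x‖ ^ 2)) ?_ ?_ ?_ ?_
    · refine Eventually.of_forall fun s => ?_
      have : Measurable fun x => ‖Complex.exp ((2 * π * s * φ x : ℝ) * Complex.I) - 1‖ ^ (2 * m) /
          s ^ p * ‖f x‖ ^ 2 := by
        fun_prop
      exact this.aestronglyMeasurable
    · filter_upwards [self_mem_nhdsWithin] with s hs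
      have hs : 0 < s := hs
      refine Eventually.of_forall fun x => ?_
      have h2 := norm_exp_sub_one_le (2 * π * s * φ x) m hp hm.le
      have h3 : |2 * π * s * φ x| ^ p = (2 * π) ^ p * s ^ p * |φ x| ^ p := by
        rw [abs_mul, abs_of_pos (by positivity : 0 < 2 * π * s),
          Real.mul_rpow (by positivity) (abs_nonneg _), Real.mul_rpow (by positivity) hs.le]
      rw [h3] at h2
      have hsp : 0 < s ^ p := Real.rpow_pos_of_pos hs p
      rw [Real.norm_eq_abs, abs_of_nonneg (by positivity)]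
      calc ‖Complex.exp ((2 * π * s * φ x : ℝ) * Complex.I) - 1‖ ^ (2 * m) / s ^ p * ‖f x‖ ^ 2
          ≤ (2 ^ (2 * m) * ((2 * π) ^ p * s ^ p * |φ x| ^ p)) / s ^ p * ‖f x‖ ^ 2 := by gcongr
        _ = 2 ^ (2 * m) * (2 * π) ^ p * (|φ x| ^ p * ‖f x‖ ^ 2) := by field_simp
    · exact hint0.const_mul _
    · refine Eventually.of_forall fun x => ?_
      have h2 : Tendsto (fun s : ℝ => s ^ (2 * m - p) * (|2 * π * φ x| ^ (2 * m) * ‖f x‖ ^ 2))
          (𝓝[>] 0) (𝓝 (0 ^ (2 * m - p : ℝ) * (|2 * π * φ x| ^ (2 * m) * ‖f x‖ ^ 2))) := by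
        refine Tendsto.mul_const _ ?_
        have h3 : Tendsto (fun s : ℝ => s ^ (2 * m - p : ℝ)) (𝓝 0) (𝓝 (0 ^ (2 * m - p : ℝ))) :=
          (Real.continuousAt_rpow_const 0 _ (Or.inr (by linarith))).tendsto
        exact h3.mono_left nhdsWithin_le_nhds
      rw [Real.zero_rpow (by linarith), zero_mul] at h2
      refine squeeze_zero' ?_ ?_ h2
      · filter_upwards [self_mem_nhdsWithin] with s hs
        have hs : 0 < s := hs
        have hsp : 0 < s ^ p := Real.rpow_pos_of_pos hs p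
        positivity
      · filter_upwards [self_mem_nhdsWithin] with s hs
        have hs : 0 < s := hs
        have hsp : 0 < s ^ p := Real.rpow_pos_of_pos hs p
        have h3 : ‖Complex.exp ((2 * π * s * φ x : ℝ) * Complex.I) - 1‖ ≤ |2 * π * s * φ x| := by
          have := Real.norm_exp_I_mul_ofReal_sub_one_le (x := 2 * π * s * φ x)
          rwa [mul_comm, Real.norm_eq_abs] at this
        calc ‖Complex.exp ((2 * π * s * φ x : ℝ) * Complex.I) - 1‖ ^ (2 * m) / s ^ p * ‖f x‖ ^ 2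
            ≤ |2 * π * s * φ x| ^ (2 * m) / s ^ p * ‖f x‖ ^ 2 := by gcongr
          _ = s ^ (2 * m - p : ℝ) * (|2 * π * φ x| ^ (2 * m) * ‖f x‖ ^ 2) := by
              rw [Real.rpow_sub hs]
              have e1 : s ^ (2 * (m : ℝ)) = s ^ (2 * m) := by
                rw [← Real.rpow_natCast]; push_cast; rfl
              rw [e1, show 2 * π * s * φ x = s * (2 * π * φ x) by ring, abs_mul, mul_pow,
                abs_of_pos hs]
              ring
  rw [integral_zero] at h1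
  refine h1.congr' ?_
  filter_upwards [self_mem_nhdsWithin] with s hs
  rw [← W.norm_map, norm_sq_eq, ← integral_div]
  refine integral_congr_ae ?_
  filter_upwards [hM.iter s g m] with x hx
  rw [hx, norm_mul, norm_pow]
  ring

end mult

variable {G : Type*} [AddCommGroup G] [MeasurableSpace G] [MeasurableAdd G] {μ : Measure G}
  [μ.IsAddRightInvariant] [IsProbabilityMeasure μ]
  {H : Type*} [NormedAddCommGroup H] [NormedSpace ℂ H]
  {V : Lp ℂ 2 μ ≃L[ℂ] H} {one : Lp ℂ 2 μ} {M T : ℝ → H →L[ℂ] H} {y y' : ℝ → G} {K K' : ℝ}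
  {E : Type*} [MeasurableSpace E] {ν : Measure E} {W : H →ₗᵢ[ℂ] Lp ℂ 2 ν} {φ : E → ℝ}

theorem bad_little_o (F : Flow V one M y K) (hM : Mult W φ M) {p : ℝ} (hp : 0 < p)
    (hfin : ∫⁻ x, ENNReal.ofReal (|φ x| ^ p) * ‖W (V one) x‖ₑ ^ 2 ∂ν ≠ ∞) :
    Tendsto (fun s : ℝ => (μ (badSet V one M s)).toReal / s ^ p) (𝓝[>] 0) (𝓝 0) := by
  obtain ⟨m, hm⟩ := exists_nat_gt p
  obtain ⟨C, hC, hb⟩ := F.meas_bound m
  have h1 := (hM.moment (V one) hp (m + 1) (by push_cast; linarith) hfin).const_mul C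
  rw [mul_zero] at h1
  refine squeeze_zero' ?_ ?_ h1
  · filter_upwards [self_mem_nhdsWithin] with s hs
    have hsp : 0 < s ^ p := Real.rpow_pos_of_pos hs p
    positivity
  · filter_upwards [self_mem_nhdsWithin] with s hs
    have hsp : 0 < s ^ p := Real.rpow_pos_of_pos hs p
    rw [← mul_div_assoc]
    exact div_le_div_of_nonneg_right (hb s) hsp.le

/-- Abstract form of the nonsymmetric uncertainty principle. -/
theorem no_pq (F : Flow V one M y K) (F' : Flow V one T y' K')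
    (hcomm : ∀ s t f, M s (T t f) = Complex.exp ((2 * π * s * t : ℝ) * Complex.I) • T t (M s f))
    {p q : ℝ} (hp : 1 < p) (hpq : 1 / p + 1 / q = 1)
    (h1 : Tendsto (fun s : ℝ => (μ (badSet V one M s)).toReal / s ^ p) (𝓝[>] 0) (𝓝 0))
    (h2 : Tendsto (fun t : ℝ => (μ (badSet V one T t)).toReal / t ^ q) (𝓝[>] 0) (𝓝 0)) :
    False := by
  have hp0 : 0 < p := by linarith
  have hq0 : 0 < q := by
    have h3 : 0 < 1 / q := by
      have : 1 / p < 1 := by rw [div_lt_one hp0]; exact hp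
      linarith
    exact one_div_pos.1 h3
  have hroot : ∀ r : ℝ, 0 < r → Tendsto (fun h : ℝ => h ^ (1 / r)) (𝓝[>] 0) (𝓝[>] 0) := by
    intro r hr
    rw [tendsto_nhdsWithin_iff]
    constructor
    · have h3 : Tendsto (fun h : ℝ => h ^ (1 / r)) (𝓝 0) (𝓝 (0 ^ (1 / r))) :=
        (Real.continuousAt_rpow_const 0 _ (Or.inr (by positivity))).tendsto
      rw [Real.zero_rpow (by positivity)] at h3
      exact h3.mono_left nhdsWithin_le_nhds
    · filter_upwards [self_mem_nhdsWithin] with h hh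
      exact Real.rpow_pos_of_pos hh _
  have h3 := h1.comp (hroot p hp0)
  have h4 := h2.comp (hroot q hq0)
  have h5 : ∀ᶠ h : ℝ in 𝓝[>] 0, (μ (badSet V one M (h ^ (1 / p)))).toReal / (h ^ (1 / p)) ^ p < 1 / 24 :=
    h3.eventually_lt_const (by norm_num)
  have h6 : ∀ᶠ h : ℝ in 𝓝[>] 0, (μ (badSet V one T (h ^ (1 / q)))).toReal / (h ^ (1 / q)) ^ q < 1 / 24 :=
    h4.eventually_lt_const (by norm_num)
  have h7 : ∀ᶠ h : ℝ in 𝓝[>] 0, h < 1 / 2 :=
    mem_nhdsWithin_of_mem_nhds (Iio_mem_nhds (by norm_num))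
  have h12 : ∀ᶠ h : ℝ in 𝓝[>] 0, 0 < h := self_mem_nhdsWithin
  obtain ⟨h, ⟨h8, h9⟩, h10, hh⟩ := ((h5.and h6).and (h7.and h12)).exists
  have hs : 0 < h ^ (1 / p) := Real.rpow_pos_of_pos hh _
  have ht : 0 < h ^ (1 / q) := Real.rpow_pos_of_pos hh _
  have e1 : (h ^ (1 / p)) ^ p = h := by
    rw [← Real.rpow_mul hh.le, one_div_mul_cancel hp0.ne', Real.rpow_one]
  have e2 : (h ^ (1 / q)) ^ q = h := by
    rw [← Real.rpow_mul hh.le, one_div_mul_cancel hq0.ne', Real.rpow_one]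
  have e3 : h ^ (1 / p) * h ^ (1 / q) = h := by
    rw [← Real.rpow_add hh, hpq, Real.rpow_one]
  have h13 := defect F F' hcomm hs ht (by rw [e3]; exact h10)
  rw [e1, div_lt_iff₀ hh] at h8
  rw [e2, div_lt_iff₀ hh] at h9
  rw [e3] at h13
  linarith

/-- Abstract form of the uncertainty principle in the case of a compact support. -/
theorem no_one (F : Flow V one M y K) (F' : Flow V one T y' K')
    (hcomm : ∀ s t f, M s (T t f) = Complex.exp ((2 * π * s * t : ℝ) * Complex.I) • T t (M s f))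
    {s : ℝ} (hs : 0 < s) (h1 : μ (badSet V one M s) = 0)
    (h2 : Tendsto (fun t : ℝ => (μ (badSet V one T t)).toReal / t ^ (1 : ℝ)) (𝓝[>] 0) (𝓝 0)) :
    False := by
  have h5 : ∀ᶠ t : ℝ in 𝓝[>] 0, (μ (badSet V one T t)).toReal / t ^ (1 : ℝ) < s / 12 :=
    h2.eventually_lt_const (by positivity)
  have h7 : ∀ᶠ t : ℝ in 𝓝[>] 0, t < 1 / (2 * s) :=
    mem_nhdsWithin_of_mem_nhds (Iio_mem_nhds (by positivity))
  have h12 : ∀ᶠ h : ℝ in 𝓝[>] 0, 0 < h := self_mem_nhdsWithin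
  obtain ⟨t, h8, h9, ht⟩ := (h5.and (h7.and h12)).exists
  rw [Real.rpow_one, div_lt_iff₀ ht] at h8
  have h10 : s * t < 1 / 2 := by
    rw [lt_div_iff₀ (by positivity)] at h9
    linarith
  have h13 := defect F F' hcomm hs ht h10
  rw [h1, ENNReal.toReal_zero, zero_add] at h13
  nlinarith [mul_pos hs ht]

end Pool.Agent.K4H44.BLT
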