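import Pool.Agent.K4H44.BLT.Support

/-!
# The cocycle of an element with bounded spectral support is uniformly close to one
-/

set_option autoImplicit false
set_option linter.unusedSectionVars false

noncomputable section

open MeasureTheory Filter Topology
open scoped ENNReal Real

namespace Pool.Agent.K4H44.BLT

section mult

variable {E : Type*} [MeasurableSpace E] {ν : Measure E}
  {H : Type*} [NormedAddCommGroup H] [NormedSpace ℂ H]
  {W : H →ₗᵢ[ℂ] Lp ℂ 2 ν} {φ : E → ℝ} {M : ℝ → H →L[ℂ] H}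

theorem Mult.second (hM : Mult W φ M) {R : ℝ} (g k : H)
    (hk : W k =ᵐ[ν] fun x => (φ x : ℂ) * W g x) (hsupp : ∀ᵐ x ∂ν, R < |φ x| → W g x = 0)
    {h : ℝ} (hh : 0 ≤ h) (hh1 : 2 * π * h * R ≤ 1) :
    ‖M h g - g - ((2 * π * h : ℝ) * Complex.I : ℂ) • k‖ ≤ (2 * π * h * R) ^ 2 * ‖g‖ := by
  rw [← W.norm_map, ← W.norm_map g]
  refine Lp.norm_le_mul_norm_of_ae_le_mul ?_
  rw [map_sub, map_sub, map_smul]
  set c : ℂ := ((2 * π * h : ℝ) * Complex.I : ℂ) with hc
  filter_upwards [Lp.coeFn_sub (W (M h g) - W g) (c • W k), Lp.coeFn_sub (W (M h g)) (W g),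
    Lp.coeFn_smul c (W k), hM.eq h g, hk, hsupp] with x a1 a2 a3 a4 a5 a6
  rw [a1, Pi.sub_apply, a2, a3, Pi.sub_apply, Pi.smul_apply, a4, a5, smul_eq_mul]
  by_cases hx : R < |φ x|
  · rw [a6 hx]; simp
  · have e : Complex.exp ((2 * π * h * φ x : ℝ) * Complex.I) * W g x - W g x -
        c * ((φ x : ℂ) * W g x) = (Complex.exp ((2 * π * h * φ x : ℝ) * Complex.I) - 1 -
        (2 * π * h * φ x : ℝ) * Complex.I) * W g x := by
      rw [hc]; push_cast; ring
    rw [e, norm_mul]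
    refine mul_le_mul_of_nonneg_right ?_ (norm_nonneg _)
    have h1 : ‖((2 * π * h * φ x : ℝ) : ℂ) * Complex.I‖ ≤ 2 * π * h * R := by
      rw [norm_mul, Complex.norm_I, mul_one, Complex.norm_real, Real.norm_eq_abs, abs_mul,
        abs_of_nonneg (by positivity)]
      exact mul_le_mul_of_nonneg_left (not_lt.1 hx) (by positivity)
    refine (Complex.norm_exp_sub_one_sub_id_le (h1.trans hh1)).trans ?_
    exact pow_le_pow_left₀ (norm_nonneg _) h1 2

end mult

section

variable {G : Type*} [MeasurableSpace G] {μ : Measure G}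

theorem bdd_sum {b : ℝ} (N : ℕ) (f : ℕ → Lp ℂ 2 μ) (hf : ∀ n, ∀ᵐ z ∂μ, ‖f n z‖ ≤ b) :
    ∀ᵐ z ∂μ, ‖(∑ n ∈ Finset.range N, f n : Lp ℂ 2 μ) z‖ ≤ N * b := by
  induction N with
  | zero =>
    filter_upwards [Lp.coeFn_zero ℂ 2 μ] with z hz
    rw [Finset.sum_range_zero, hz]
    simp
  | succ N ih =>
    rw [Finset.sum_range_succ]
    filter_upwards [ih, hf N, Lp.coeFn_add (∑ n ∈ Finset.range N, f n) (f N)] with z e1 e2 e3
    rw [e3, Pi.add_apply]
    refine (norm_add_le _ _).trans ((add_le_add e1 e2).trans (le_of_eq ?_))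
    push_cast
    ring

end

variable {G : Type*} [AddCommGroup G] [MeasurableSpace G] [MeasurableAdd G] {μ : Measure G}
  [μ.IsAddRightInvariant] [IsProbabilityMeasure μ]
  {H : Type*} [NormedAddCommGroup H] [NormedSpace ℂ H] [CompleteSpace H]
  {V : Lp ℂ 2 μ ≃L[ℂ] H} {one : Lp ℂ 2 μ} {M : ℝ → H →L[ℂ] H} {y : ℝ → G} {K : ℝ}
  {E : Type*} [MeasurableSpace E] {ν : Measure E} {W : H →ₗᵢ[ℂ] Lp ℂ 2 ν} {φ : E → ℝ}

/-- Image of the generator. -/
theorem Flow.gen_bdd (F : Flow V one M y K) (hM : Mult W φ M) {R : ℝ} (hR : 0 < R) :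
    ∃ B : ℝ, 0 ≤ B ∧ ∀ᵐ z ∂μ, ‖V.symm (gen M R (V one)) z‖ ≤ B := by
  have hK0 : 0 < K := zero_lt_one.trans_le F.hK
  have h1 : HasSum (fun n => V.symm (tm M R (V one) n)) (V.symm (gen M R (V one))) :=
    (hM.hasSum_gen hR (V one)).mapL (V.symm : H →L[ℂ] Lp ℂ 2 μ)
  refine ⟨∑' n : ℕ, R * (1 / (n : ℝ) ^ 2) * (2 * K), tsum_nonneg fun n => by positivity,
    bdd_of_hasSum h1 (summable_cf.mul_right _) (fun n => by positivity) fun n => ?_⟩
  have h2 := F.le (n / (4 * R))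
  have h3 := F.le (-(n / (4 * R)))
  set A : Lp ℂ 2 μ := coc V one M (n / (4 * R)) with hA
  set B : Lp ℂ 2 μ := coc V one M (-(n / (4 * R))) with hB
  have e : V.symm (tm M R (V one) n) = (cf R n : ℂ) • (Complex.exp ((π * n / 2 : ℝ) * Complex.I) • A +
    Complex.exp ((-(π * n / 2) : ℝ) * Complex.I) • B) := by
    rw [tm, map_smul, map_add, map_smul, map_smul]
    rfl
  rw [e]
  filter_upwards [h2, h3, Lp.coeFn_smul (cf R n : ℂ) (Complex.exp ((π * n / 2 : ℝ) * Complex.I) • A +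
    Complex.exp ((-(π * n / 2) : ℝ) * Complex.I) • B),
    Lp.coeFn_add (Complex.exp ((π * n / 2 : ℝ) * Complex.I) • A)
      (Complex.exp ((-(π * n / 2) : ℝ) * Complex.I) • B),
    Lp.coeFn_smul (Complex.exp ((π * n / 2 : ℝ) * Complex.I)) A,
    Lp.coeFn_smul (Complex.exp ((-(π * n / 2) : ℝ) * Complex.I)) B] with x a1 a2 a3 a4 a5 a6
  rw [a3, Pi.smul_apply, a4, Pi.add_apply, a5, a6, Pi.smul_apply, Pi.smul_apply, norm_smul,
    Complex.norm_real, Real.norm_eq_abs]
  refine mul_le_mul (abs_cf_le hR n) ?_ (norm_nonneg _) (by positivity)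
  refine (norm_add_le _ _).trans ?_
  rw [norm_smul, norm_smul, Complex.norm_exp_ofReal_mul_I, Complex.norm_exp_ofReal_mul_I]
  linarith

theorem Flow.near (F : Flow V one M y K) (hM : Mult W φ M) {R : ℝ} (hR : 0 < R)
    (hsupp : ∀ᵐ x ∂ν, R < |φ x| → W (V one) x = 0) :
    ∃ C : ℝ, 0 ≤ C ∧ ∀ s : ℝ, 0 ≤ s → ∀ᵐ z ∂μ, ‖coc V one M s z - 1‖ ≤ C * s := by
  have hK0 : 0 < K := zero_lt_one.trans_le F.hK
  obtain ⟨B, hB0, hB⟩ := F.gen_bdd hM hR
  set g : H := V one with hg
  set k : H := gen M R g with hk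
  have hkW := hM.gen_eq hR g hsupp
  refine ⟨2 * π * (B * K), by positivity, fun s hs => ?_⟩
  have hpi := Real.pi_pos
  -- bounds for the translates of the generator
  have hkb : ∀ t : ℝ, ∀ᵐ z ∂μ, ‖V.symm (M t k) z‖ ≤ B * K := by
    intro t
    have h1 := F.weight t (V.symm k)
    rw [ContinuousLinearEquiv.apply_symm_apply] at h1
    filter_upwards [h1, ae_translate (y t) hB, F.le t] with z a1 a2 a3
    rw [a1, norm_mul]
    exact mul_le_mul a2 a3 (norm_nonneg _) hB0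
  -- the approximations
  set f : ℕ → Lp ℂ 2 μ := fun N => ∑ j ∈ Finset.range (N + 1),
    V.symm (M (j * (s / (N + 1))) (((2 * π * (s / (N + 1)) : ℝ) * Complex.I : ℂ) • k)) with hf
  have hfb : ∀ N, ∀ᵐ z ∂μ, ‖f N z‖ ≤ 2 * π * (B * K) * s := by
    intro N
    have hN : (0 : ℝ) < N + 1 := by positivity
    have h1 : ∀ j : ℕ, ∀ᵐ z ∂μ, ‖V.symm (M (j * (s / (N + 1)))
        (((2 * π * (s / (N + 1)) : ℝ) * Complex.I : ℂ) • k)) z‖ ≤
        2 * π * (s / (N + 1)) * (B * K) := by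
      intro j
      rw [map_smul, map_smul]
      filter_upwards [hkb (j * (s / (N + 1))),
        Lp.coeFn_smul ((2 * π * (s / (N + 1)) : ℝ) * Complex.I : ℂ)
          (V.symm (M (j * (s / (N + 1))) k))] with z a1 a2
      rw [a2, Pi.smul_apply, norm_smul, norm_mul, Complex.norm_I, mul_one, Complex.norm_real,
        Real.norm_eq_abs, abs_of_nonneg (by positivity)]
      exact mul_le_mul_of_nonneg_left a1 (by positivity)
    filter_upwards [bdd_sum (N + 1) _ h1] with z hz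
    refine hz.trans (le_of_eq ?_)
    push_cast
    field_simp
  have hlim : Tendsto f atTop (𝓝 (coc V one M s - one)) := by
    rw [tendsto_iff_norm_sub_tendsto_zero]
    set κ : ℝ := ‖(V.symm : H →L[ℂ] Lp ℂ 2 μ)‖ with hκ
    have h1 : Tendsto (fun N : ℕ => κ * ((2 * π * s * R) ^ 2 * ‖g‖) * (1 / ((N : ℝ) + 1))) atTop
        (𝓝 (κ * ((2 * π * s * R) ^ 2 * ‖g‖) * 0)) :=
      tendsto_one_div_add_atTop_nhds_zero_nat.const_mul _
    rw [mul_zero] at h1
    refine squeeze_zero' (Eventually.of_forall fun N => norm_nonneg _) ?_ h1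
    obtain ⟨N₀, hN₀⟩ := exists_nat_gt (2 * π * s * R)
    filter_upwards [eventually_ge_atTop N₀] with N hN
    have hN1 : (0 : ℝ) < N + 1 := by positivity
    have hNN : (N₀ : ℝ) ≤ N := by exact_mod_cast hN
    set h : ℝ := s / (N + 1) with hh
    have hh0 : 0 ≤ h := by positivity
    have hh1 : 2 * π * h * R ≤ 1 := by
      rw [hh, show 2 * π * (s / (N + 1)) * R = (2 * π * s * R) / (N + 1) by ring,
        div_le_one hN1]
      linarith
    have htel : ∀ n : ℕ, M (n * h) g - g = ∑ j ∈ Finset.range n, M (j * h) (M h g - g) := by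
      intro n
      induction n with
      | zero => simp [F.zero]
      | succ n ih =>
        rw [Finset.sum_range_succ, ← ih, map_sub, ← F.add]
        have : ((n + 1 : ℕ) : ℝ) * h = n * h + h := by push_cast; ring
        rw [this]
        abel
    have e1 : coc V one M s - one = V.symm (M (((N + 1 : ℕ) : ℝ) * h) g - g) := by
      have : ((N + 1 : ℕ) : ℝ) * h = s := by
        rw [hh]; push_cast; field_simp
      rw [this, map_sub, hg, ContinuousLinearEquiv.symm_apply_apply]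
      rfl
    have e2 : f N - (coc V one M s - one) = - V.symm (∑ j ∈ Finset.range (N + 1),
        M (j * h) (M h g - g - ((2 * π * h : ℝ) * Complex.I : ℂ) • k)) := by
      rw [e1, htel, map_sum, map_sum, ← Finset.sum_sub_distrib, ← Finset.sum_neg_distrib]
      refine Finset.sum_congr rfl fun j _ => ?_
      rw [← map_sub, ← map_neg, ← map_sub, ← map_neg]
      congr 2
      abel
    rw [e2, norm_neg]
    refine ((V.symm : H →L[ℂ] Lp ℂ 2 μ).le_opNorm _).trans ?_
    have h2 : ‖∑ j ∈ Finset.range (N + 1),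
        M (j * h) (M h g - g - ((2 * π * h : ℝ) * Complex.I : ℂ) • k)‖ ≤
        (N + 1) * ((2 * π * h * R) ^ 2 * ‖g‖) := by
      refine (norm_sum_le _ _).trans ?_
      calc ∑ j ∈ Finset.range (N + 1),
            ‖M (j * h) (M h g - g - ((2 * π * h : ℝ) * Complex.I : ℂ) • k)‖
          ≤ ∑ _j ∈ Finset.range (N + 1), (2 * π * h * R) ^ 2 * ‖g‖ := by
            refine Finset.sum_le_sum fun j _ => ?_
            rw [hM.norm_eq]
            exact hM.second g k hkW hsupp hh0 hh1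
        _ = (N + 1) * ((2 * π * h * R) ^ 2 * ‖g‖) := by
            rw [Finset.sum_const, Finset.card_range, nsmul_eq_mul]
            push_cast
            ring
    calc κ * ‖∑ j ∈ Finset.range (N + 1),
        M (j * h) (M h g - g - ((2 * π * h : ℝ) * Complex.I : ℂ) • k)‖
        ≤ κ * ((N + 1) * ((2 * π * h * R) ^ 2 * ‖g‖)) := by gcongr
      _ = κ * ((2 * π * s * R) ^ 2 * ‖g‖) * (1 / ((N : ℝ) + 1)) := by
          rw [hh]; field_simp
  have hcl := (isClosed_bdd (μ := μ) (2 * π * (B * K) * s)).mem_of_tendsto hlim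
    (Eventually.of_forall hfb)
  have hcl' : ∀ᵐ z ∂μ, ‖(coc V one M s - one : Lp ℂ 2 μ) z‖ ≤ 2 * π * (B * K) * s := hcl
  filter_upwards [hcl', Lp.coeFn_sub (coc V one M s) one, F.hone] with z a1 a2 a3
  rwa [a2, Pi.sub_apply, a3] at a1

theorem Flow.bad_null (F : Flow V one M y K) (hM : Mult W φ M) {R : ℝ} (hR : 0 < R)
    (hsupp : ∀ᵐ x ∂ν, R < |φ x| → W (V one) x = 0) :
    ∃ s : ℝ, 0 < s ∧ μ (badSet V one M s) = 0 := by
  obtain ⟨C, hC, h⟩ := F.near hM hR hsupp
  refine ⟨1 / (8 * (C + 1)), by positivity, ?_⟩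
  have h1 := h (1 / (8 * (C + 1))) (by positivity)
  have h2 : C * (1 / (8 * (C + 1))) < 1 / 4 := by
    rw [mul_one_div, div_lt_iff₀ (by positivity)]
    linarith
  have h3 : ∀ᵐ z ∂μ, z ∉ badSet V one M (1 / (8 * (C + 1))) := by
    filter_upwards [h1] with z hz hz'
    have h4 : 1 / 4 ≤ ‖coc V one M (1 / (8 * (C + 1))) z - 1‖ := hz'
    linarith
  exact measure_eq_zero_iff_ae_notMem.2 h3

end Pool.Agent.K4H44.BLT
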