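import Pool.Agent.K4H44.BLT.Moment

/-!
# Elements with bounded spectral support
-/

set_option autoImplicit false
set_option linter.unusedSectionVars false

noncomputable section

open MeasureTheory Filter Topology
open scoped ENNReal Real

namespace Pool.Agent.K4H44.BLT

/-- The Fourier series of the triangle wave. -/
theorem triangle {y : ℝ} (hy : |y| ≤ 1 / 4) :
    HasSum (fun n : ℕ => (((-1 : ℝ) ^ n - 1) / (n : ℝ) ^ 2) * Real.cos (2 * π * n * (y + 1 / 4)))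
      (π ^ 2 * y) := by
  rw [abs_le] at hy
  have h1 := hasSum_one_div_nat_pow_mul_cos (k := 1) one_ne_zero
    (x := y + 1 / 4) ⟨by linarith, by linarith⟩
  have h2 := hasSum_one_div_nat_pow_mul_cos (k := 1) one_ne_zero
    (x := y + 1 / 4 + 1 / 2) ⟨by linarith, by linarith⟩
  have h3 := h2.sub h1
  have e : ∀ x : ℝ, (Polynomial.map (algebraMap ℚ ℝ) (Polynomial.bernoulli (2 * 1))).eval x =
      x ^ 2 - x + 1 / 6 := by
    intro x
    simp only [Polynomial.bernoulli, Finset.sum_range_succ, Finset.sum_range_zero, mul_one]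
    simp [bernoulli_one, bernoulli_two]
    norm_num
    ring
  rw [e, e] at h3
  have hf : (fun n : ℕ => 1 / (n : ℝ) ^ (2 * 1) * Real.cos (2 * π * n * (y + 1 / 4 + 1 / 2)) -
      1 / (n : ℝ) ^ (2 * 1) * Real.cos (2 * π * n * (y + 1 / 4))) =
      fun n : ℕ => (((-1 : ℝ) ^ n - 1) / (n : ℝ) ^ 2) * Real.cos (2 * π * n * (y + 1 / 4)) := by
    funext n
    have : Real.cos (2 * π * n * (y + 1 / 4 + 1 / 2)) =
        (-1) ^ n * Real.cos (2 * π * n * (y + 1 / 4)) := by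
      rw [show 2 * π * n * (y + 1 / 4 + 1 / 2) = 2 * π * n * (y + 1 / 4) + n * π by ring,
        Real.cos_add_nat_mul_pi]
    rw [this]
    ring
  have hv : (-1 : ℝ) ^ (1 + 1) * (2 * π) ^ (2 * 1) / 2 / ((2 * 1).factorial : ℝ) *
        ((y + 1 / 4 + 1 / 2) ^ 2 - (y + 1 / 4 + 1 / 2) + 1 / 6) -
      (-1) ^ (1 + 1) * (2 * π) ^ (2 * 1) / 2 / ((2 * 1).factorial : ℝ) *
        ((y + 1 / 4) ^ 2 - (y + 1 / 4) + 1 / 6) = π ^ 2 * y := by
    simp [Nat.factorial]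
    ring
  rw [hf, hv] at h3
  exact h3

section

variable {G : Type*} [MeasurableSpace G] {μ : Measure G}

theorem isClosed_bdd (C : ℝ) : IsClosed {f : Lp ℂ 2 μ | ∀ᵐ z ∂μ, ‖f z‖ ≤ C} := by
  apply IsSeqClosed.isClosed
  intro x p hx hp
  obtain ⟨ns, hns, h3⟩ := (tendstoInMeasure_of_tendsto_Lp hp).exists_seq_tendsto_ae
  have h6 : ∀ᵐ z ∂μ, ∀ n, ‖(x n : G → ℂ) z‖ ≤ C := by
    rw [ae_all_iff]
    exact fun n => hx n
  change ∀ᵐ z ∂μ, ‖p z‖ ≤ C
  filter_upwards [h3, h6] with z e1 e2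
  exact le_of_tendsto e1.norm (Eventually.of_forall fun n => e2 _)

theorem bdd_of_hasSum {f : ℕ → Lp ℂ 2 μ} {p : Lp ℂ 2 μ} (h : HasSum f p) {b : ℕ → ℝ}
    (hb : Summable b) (hb0 : ∀ n, 0 ≤ b n) (hf : ∀ n, ∀ᵐ z ∂μ, ‖f n z‖ ≤ b n) :
    ∀ᵐ z ∂μ, ‖p z‖ ≤ ∑' n, b n := by
  have h1 := isClosed_bdd (μ := μ) (∑' n, b n)
  refine h1.mem_of_tendsto h (Eventually.of_forall fun s => ?_)
  have h2 : ∀ s : Finset ℕ, ∀ᵐ z ∂μ, ‖(∑ n ∈ s, f n : Lp ℂ 2 μ) z‖ ≤ ∑ n ∈ s, b n := by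
    intro s
    induction s using Finset.induction_on with
    | empty =>
      filter_upwards [Lp.coeFn_zero ℂ 2 μ] with z hz
      rw [Finset.sum_empty, Finset.sum_empty, hz]
      simp
    | insert a s ha ih =>
      rw [Finset.sum_insert ha, Finset.sum_insert ha]
      filter_upwards [ih, hf a, Lp.coeFn_add (f a) (∑ n ∈ s, f n)] with z e1 e2 e3
      rw [e3, Pi.add_apply]
      exact (norm_add_le _ _).trans (add_le_add e2 e1)
  filter_upwards [h2 s] with z hz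
  exact hz.trans (hb.sum_le_tsum s fun n _ => hb0 n)

end

section mult

variable {E : Type*} [MeasurableSpace E] {ν : Measure E}
  {H : Type*} [NormedAddCommGroup H] [NormedSpace ℂ H] [CompleteSpace H]
  {W : H →ₗᵢ[ℂ] Lp ℂ 2 ν} {φ : E → ℝ} {M : ℝ → H →L[ℂ] H}

theorem Mult.norm_eq (hM : Mult W φ M) (s : ℝ) (f : H) : ‖M s f‖ = ‖f‖ := by
  rw [← W.norm_map, ← W.norm_map f, Lp.norm_def, Lp.norm_def]
  congr 1
  refine eLpNorm_congr_norm_ae ?_
  filter_upwards [hM.eq s f] with x hx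
  rw [hx, norm_mul, Complex.norm_exp_ofReal_mul_I, one_mul]

/-- The coefficients of the series. -/
def cf (R : ℝ) (n : ℕ) : ℝ := 4 * R / π ^ 2 * (((-1 : ℝ) ^ n - 1) / (n : ℝ) ^ 2) / 2

/-- The terms of the series. -/
def tm (M : ℝ → H →L[ℂ] H) (R : ℝ) (g : H) (n : ℕ) : H :=
  (cf R n : ℂ) • (Complex.exp ((π * n / 2 : ℝ) * Complex.I) • M (n / (4 * R)) g +
    Complex.exp ((-(π * n / 2) : ℝ) * Complex.I) • M (-(n / (4 * R))) g)

theorem abs_cf_le {R : ℝ} (hR : 0 < R) (n : ℕ) : |cf R n| ≤ R * (1 / (n : ℝ) ^ 2) := by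
  rcases Nat.eq_zero_or_pos n with rfl | hn
  · simp [cf]
  · have hn' : (0 : ℝ) < n := by exact_mod_cast hn
    have h1 : |(-1 : ℝ) ^ n - 1| ≤ 2 := by
      rcases neg_one_pow_eq_or ℝ n with h | h <;> rw [h] <;> norm_num
    have hpi : 3 < π := Real.pi_gt_three
    have h2 : 4 * R / π ^ 2 ≤ R := by
      have h3 : 4 ≤ π ^ 2 := by nlinarith
      rw [div_le_iff₀ (by positivity)]
      nlinarith
    rw [cf, abs_div, abs_mul, abs_of_pos (by positivity : (0 : ℝ) < 4 * R / π ^ 2), abs_div,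
      abs_of_pos (by positivity : (0 : ℝ) < (n : ℝ) ^ 2), abs_two]
    calc 4 * R / π ^ 2 * (|(-1 : ℝ) ^ n - 1| / (n : ℝ) ^ 2) / 2 ≤ R * (2 / (n : ℝ) ^ 2) / 2 := by
          gcongr
      _ = R * (1 / (n : ℝ) ^ 2) := by ring

theorem summable_cf {R : ℝ} : Summable fun n : ℕ => R * (1 / (n : ℝ) ^ 2) :=
  (Real.summable_one_div_nat_pow.2 (by norm_num)).mul_left R

theorem Mult.norm_tm (hM : Mult W φ M) {R : ℝ} (hR : 0 < R) (g : H) (n : ℕ) :
    ‖tm M R g n‖ ≤ R * (1 / (n : ℝ) ^ 2) * (2 * ‖g‖) := by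
  rw [tm, norm_smul, Complex.norm_real, Real.norm_eq_abs]
  refine mul_le_mul (abs_cf_le hR n) ?_ (norm_nonneg _) (by positivity)
  refine (norm_add_le _ _).trans (le_of_eq ?_)
  rw [norm_smul, norm_smul, Complex.norm_exp_ofReal_mul_I, Complex.norm_exp_ofReal_mul_I,
    hM.norm_eq, hM.norm_eq]
  ring

/-- The generator applied to `g`. -/
def gen (M : ℝ → H →L[ℂ] H) (R : ℝ) (g : H) : H := ∑' n, tm M R g n

theorem Mult.hasSum_gen (hM : Mult W φ M) {R : ℝ} (hR : 0 < R) (g : H) :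
    HasSum (tm M R g) (gen M R g) :=
  (Summable.of_norm_bounded (summable_cf.mul_right _) (hM.norm_tm hR g)).hasSum

theorem Mult.tm_eq (hM : Mult W φ M) {R : ℝ} (hR : 0 < R) (g : H) (n : ℕ) :
    W (tm M R g n) =ᵐ[ν] fun x => ((4 * R / π ^ 2 * ((((-1 : ℝ) ^ n - 1) / (n : ℝ) ^ 2) *
      Real.cos (2 * π * n * (φ x / (4 * R) + 1 / 4))) : ℝ) : ℂ) * W g x := by
  have h1 := hM.eq (n / (4 * R)) g
  have h2 := hM.eq (-(n / (4 * R))) g
  set A := W (M (n / (4 * R)) g)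
  set B := W (M (-(n / (4 * R))) g)
  have e : W (tm M R g n) = (cf R n : ℂ) • (Complex.exp ((π * n / 2 : ℝ) * Complex.I) • A +
    Complex.exp ((-(π * n / 2) : ℝ) * Complex.I) • B) := by
    rw [tm, map_smul, map_add, map_smul, map_smul]
  rw [e]
  filter_upwards [h1, h2, Lp.coeFn_smul (cf R n : ℂ) (Complex.exp ((π * n / 2 : ℝ) * Complex.I) • A +
    Complex.exp ((-(π * n / 2) : ℝ) * Complex.I) • B),
    Lp.coeFn_add (Complex.exp ((π * n / 2 : ℝ) * Complex.I) • A)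
      (Complex.exp ((-(π * n / 2) : ℝ) * Complex.I) • B),
    Lp.coeFn_smul (Complex.exp ((π * n / 2 : ℝ) * Complex.I)) A,
    Lp.coeFn_smul (Complex.exp ((-(π * n / 2) : ℝ) * Complex.I)) B] with x a1 a2 a3 a4 a5 a6
  rw [a3, Pi.smul_apply, a4, Pi.add_apply, a5, a6, Pi.smul_apply, Pi.smul_apply, a1, a2]
  simp only [smul_eq_mul]
  rw [← mul_assoc, ← mul_assoc, ← Complex.exp_add, ← Complex.exp_add]
  have e1 : ((π * n / 2 : ℝ) : ℂ) * Complex.I + ((2 * π * (n / (4 * R)) * φ x : ℝ) : ℂ) * Complex.I =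
      ((2 * π * n * (φ x / (4 * R) + 1 / 4) : ℝ) : ℂ) * Complex.I := by
    rw [← add_mul]; congr 1; norm_cast; field_simp; ring
  have e2 : ((-(π * n / 2) : ℝ) : ℂ) * Complex.I +
      ((2 * π * (-(n / (4 * R))) * φ x : ℝ) : ℂ) * Complex.I =
      -(((2 * π * n * (φ x / (4 * R) + 1 / 4) : ℝ) : ℂ)) * Complex.I := by
    rw [← add_mul]; congr 1; norm_cast; field_simp; ring
  rw [e1, e2]
  have e3 : Complex.exp (((2 * π * n * (φ x / (4 * R) + 1 / 4) : ℝ) : ℂ) * Complex.I) +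
      Complex.exp (-(((2 * π * n * (φ x / (4 * R) + 1 / 4) : ℝ) : ℂ)) * Complex.I) =
      2 * ((Real.cos (2 * π * n * (φ x / (4 * R) + 1 / 4)) : ℝ) : ℂ) := by
    rw [Complex.ofReal_cos, Complex.cos]
    ring
  rw [← add_mul, e3, cf]
  push_cast
  ring

theorem Mult.gen_eq (hM : Mult W φ M) {R : ℝ} (hR : 0 < R) (g : H)
    (hsupp : ∀ᵐ x ∂ν, R < |φ x| → W g x = 0) :
    W (gen M R g) =ᵐ[ν] fun x => (φ x : ℂ) * W g x := by
  have h1 : Tendsto (fun N => ∑ n ∈ Finset.range N, W (tm M R g n)) atTop (𝓝 (W (gen M R g))) := by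
    have h2 := (hM.hasSum_gen hR g).tendsto_sum_nat
    have h3 := (W.continuous.tendsto _).comp h2
    refine h3.congr fun N => ?_
    simp [map_sum]
  obtain ⟨ns, hns, h3⟩ := (tendstoInMeasure_of_tendsto_Lp h1).exists_seq_tendsto_ae
  have h4 : ∀ᵐ x ∂ν, ∀ N : ℕ, (∑ n ∈ Finset.range N, W (tm M R g n) : Lp ℂ 2 ν) x =
      ∑ n ∈ Finset.range N, ((4 * R / π ^ 2 * ((((-1 : ℝ) ^ n - 1) / (n : ℝ) ^ 2) *
      Real.cos (2 * π * n * (φ x / (4 * R) + 1 / 4))) : ℝ) : ℂ) * W g x := by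
    rw [ae_all_iff]
    intro N
    induction N with
    | zero =>
      filter_upwards [Lp.coeFn_zero ℂ 2 ν] with x hx
      rw [Finset.sum_range_zero, Finset.sum_range_zero, hx]
      simp
    | succ N ih =>
      rw [Finset.sum_range_succ]
      filter_upwards [ih, Lp.coeFn_add (∑ n ∈ Finset.range N, W (tm M R g n)) (W (tm M R g N)),
        hM.tm_eq hR g N] with x a1 a2 a3
      rw [a2, Pi.add_apply, a1, a3, Finset.sum_range_succ]
  filter_upwards [h3, h4, hsupp] with x a1 a2 a3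
  by_cases hx : R < |φ x|
  · rw [a3 hx, mul_zero]
    refine tendsto_nhds_unique a1 ?_
    simp only [a2, a3 hx, mul_zero, Finset.sum_const_zero]
    exact tendsto_const_nhds
  · have hy : |φ x / (4 * R)| ≤ 1 / 4 := by
      rw [abs_div, abs_of_pos (by positivity : (0 : ℝ) < 4 * R), div_le_iff₀ (by positivity)]
      linarith [not_lt.1 hx]
    have h5 := (triangle hy).mul_left (4 * R / π ^ 2)
    have h6 := (Complex.hasSum_ofReal.2 h5).mul_right (W g x)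
    have h7 := (h6.tendsto_sum_nat.comp hns.tendsto_atTop)
    refine tendsto_nhds_unique a1 ?_
    have e : ((4 * R / π ^ 2 * (π ^ 2 * (φ x / (4 * R))) : ℝ) : ℂ) = (φ x : ℂ) := by
      congr 1
      field_simp
    rw [e] at h7
    refine h7.congr fun N => ?_
    rw [Function.comp_apply, a2]

end mult

end Pool.Agent.K4H44.BLT
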