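import Pool.Agent.K4H44.BLT.Near

/-!
# Time-frequency shifts
-/

set_option autoImplicit false
set_option linter.unusedSectionVars false

noncomputable section

open MeasureTheory Filter Topology
open scoped ENNReal Real

namespace Pool.Agent.K4H44.BLT

variable {l : ℕ}

/-- Time-frequency shift on functions. -/
def tff (a b : EuclideanSpace ℝ (Fin l)) (f : EuclideanSpace ℝ (Fin l) → ℂ)
    (x : EuclideanSpace ℝ (Fin l)) : ℂ :=
  Complex.exp ((2 * π * inner ℝ b x : ℝ) * Complex.I) * f (x - a)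

theorem ae_sub {p : EuclideanSpace ℝ (Fin l) → Prop} (a : EuclideanSpace ℝ (Fin l))
    (h : ∀ᵐ x, p x) : ∀ᵐ x, p (x - a) :=
  (measurePreserving_sub_right volume a).quasiMeasurePreserving.ae h

theorem norm_tff (a b : EuclideanSpace ℝ (Fin l)) (f : EuclideanSpace ℝ (Fin l) → ℂ)
    (x : EuclideanSpace ℝ (Fin l)) : ‖tff a b f x‖ = ‖f (x - a)‖ := by
  rw [tff, norm_mul, Complex.norm_exp_ofReal_mul_I, one_mul]

theorem memLp_tff (a b : EuclideanSpace ℝ (Fin l)) {f : EuclideanSpace ℝ (Fin l) → ℂ}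
    (hf : MemLp f 2) : MemLp (tff a b f) 2 := by
  have h1 : MemLp (fun x => f (x - a)) 2 :=
    hf.comp_measurePreserving (measurePreserving_sub_right volume a)
  refine MemLp.congr_norm h1 ?_ (Eventually.of_forall fun x => (norm_tff a b f x).symm)
  have h2 : Continuous fun x : EuclideanSpace ℝ (Fin l) =>
      Complex.exp ((2 * π * inner ℝ b x : ℝ) * Complex.I) := by fun_prop
  exact h2.aestronglyMeasurable.mul h1.1

/-- Time-frequency shift on `L²`. -/
def tf (a b : EuclideanSpace ℝ (Fin l)) :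
    Lp ℂ 2 (volume : Measure (EuclideanSpace ℝ (Fin l))) →ₗᵢ[ℂ]
      Lp ℂ 2 (volume : Measure (EuclideanSpace ℝ (Fin l))) where
  toFun f := (memLp_tff a b (Lp.memLp f)).toLp
  map_add' f g := by
    rw [← MemLp.toLp_add]
    refine MemLp.toLp_congr _ _ ?_
    filter_upwards [ae_sub a (Lp.coeFn_add f g)] with x hx
    simp only [tff, Pi.add_apply] at hx ⊢
    rw [hx, mul_add]
  map_smul' c f := by
    rw [RingHom.id_apply, ← MemLp.toLp_const_smul]
    refine MemLp.toLp_congr _ _ ?_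
    filter_upwards [ae_sub a (Lp.coeFn_smul c f)] with x hx
    simp only [tff, Pi.smul_apply, smul_eq_mul] at hx ⊢
    rw [hx]
    ring
  norm_map' f := by
    change ‖(memLp_tff a b (Lp.memLp f)).toLp‖ = ‖f‖
    have h1 : ‖(memLp_tff a b (Lp.memLp f)).toLp‖ ^ 2 = ‖f‖ ^ 2 := by
      rw [norm_sq_eq, norm_sq_eq, ← integral_sub_right_eq_self (fun x => ‖f x‖ ^ 2) a]
      refine integral_congr_ae ?_
      filter_upwards [MemLp.coeFn_toLp (memLp_tff a b (Lp.memLp f))] with x hx
      rw [hx, norm_tff]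
    exact (pow_left_inj₀ (norm_nonneg _) (norm_nonneg _) two_ne_zero).1 h1

theorem coeFn_tf (a b : EuclideanSpace ℝ (Fin l))
    (f : Lp ℂ 2 (volume : Measure (EuclideanSpace ℝ (Fin l)))) :
    tf a b f =ᵐ[volume] tff a b f :=
  MemLp.coeFn_toLp (memLp_tff a b (Lp.memLp f))

theorem tf_zero (f : Lp ℂ 2 (volume : Measure (EuclideanSpace ℝ (Fin l)))) : tf 0 0 f = f := by
  refine Lp.ext ?_
  filter_upwards [coeFn_tf 0 0 f] with x hx
  rw [hx]
  simp [tff]

theorem tf_tf (a b a' b' : EuclideanSpace ℝ (Fin l))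
    (f : Lp ℂ 2 (volume : Measure (EuclideanSpace ℝ (Fin l)))) :
    tf a b (tf a' b' f) =
      Complex.exp ((-(2 * π * inner ℝ b' a) : ℝ) * Complex.I) • tf (a + a') (b + b') f := by
  refine Lp.ext ?_
  filter_upwards [coeFn_tf a b (tf a' b' f), ae_sub a (coeFn_tf a' b' f),
    Lp.coeFn_smul (Complex.exp ((-(2 * π * inner ℝ b' a) : ℝ) * Complex.I))
      (tf (a + a') (b + b') f), coeFn_tf (a + a') (b + b') f] with x h1 h2 h3 h4
  rw [h1, h3, Pi.smul_apply, h4, tff, h2, tff, tff, smul_eq_mul, ← mul_assoc, ← mul_assoc,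
    ← Complex.exp_add, ← Complex.exp_add, sub_sub]
  congr 2
  simp only [inner_add_left, inner_sub_right]
  push_cast
  ring

end Pool.Agent.K4H44.BLT
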