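import Pool.Agent.K4H44.BLT.Four

/-!
# Flows from representations of `ℤ^d`
-/

set_option autoImplicit false
set_option linter.unusedSectionVars false

noncomputable section

open MeasureTheory Filter Topology
open scoped ENNReal Real

namespace Pool.Agent.K4H44.BLT

/-- The Haar probability measure on the circle. -/
local instance : MeasureSpace UnitAddCircle := ⟨AddCircle.haarAddCircle⟩

local instance : Measure.IsAddHaarMeasure (volume : Measure UnitAddCircle) :=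
  inferInstanceAs (Measure.IsAddHaarMeasure AddCircle.haarAddCircle)

local instance : IsProbabilityMeasure (volume : Measure UnitAddCircle) :=
  inferInstanceAs (IsProbabilityMeasure AddCircle.haarAddCircle)

variable {d : Type*} [Fintype d] {H : Type*} [NormedAddCommGroup H] [NormedSpace ℂ H]

/-- The measure on the torus. -/
abbrev μT (d : Type*) [Fintype d] : Measure (UnitAddTorus d) := volume

theorem rho_weight (V : Lp ℂ 2 (μT d) ≃L[ℂ] H) (g : H) (ρ : (d → ℤ) → H →L[ℂ] H)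
    (hρ : ∀ n m f, ρ n (ρ m f) = ρ (n + m) f)
    (hV : ∀ n, V (UnitAddTorus.mFourierLp 2 n) = ρ n g) (n : d → ℤ) (f : H) :
    V.symm (ρ n f) =ᵐ[μT d] fun z => V.symm f z * UnitAddTorus.mFourier n z := by
  have hd : Dense (Submodule.span ℂ (Set.range fun n : d → ℤ =>
      (UnitAddTorus.mFourierLp 2 n : Lp ℂ 2 (μT d))) : Set (Lp ℂ 2 (μT d))) := by
    rw [Submodule.dense_iff_topologicalClosure_eq_top]
    exact UnitAddTorus.span_mFourierLp_closure_eq_top (by norm_num)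
  have h := ae_of_dense (μ := μT d) (χ := fun n z => UnitAddTorus.mFourier n z)
    (e := fun n => UnitAddTorus.mFourierLp 2 n)
    (fun n => UnitAddTorus.coeFn_mFourierLp 2 n) hd
    (((V.symm : H →L[ℂ] Lp ℂ 2 (μT d)) ∘L (ρ n)) ∘L (V : Lp ℂ 2 (μT d) →L[ℂ] H)) 0
    (fun z => UnitAddTorus.mFourier n z) ?_ (V.symm f)
  · simpa using h
  · intro m
    change V.symm (ρ n (V (UnitAddTorus.mFourierLp 2 m))) =ᵐ[μT d] _
    rw [hV, hρ, ← hV, ContinuousLinearEquiv.symm_apply_apply]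
    filter_upwards [UnitAddTorus.coeFn_mFourierLp 2 (n + m)] with z hz
    rw [hz, UnitAddTorus.mFourier_add, add_zero, mul_comm]

theorem mFourier_translate (n : d → ℤ) (z y : UnitAddTorus d) :
    UnitAddTorus.mFourier n (z + y) = UnitAddTorus.mFourier n z * UnitAddTorus.mFourier n y := by
  simp only [UnitAddTorus.mFourier, ContinuousMap.coe_mk, ← Finset.prod_mul_distrib, Pi.add_apply]
  refine Finset.prod_congr rfl fun i _ => ?_
  simp only [fourier_apply, smul_add, AddCircle.toCircle_add, Circle.coe_mul]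

theorem mFourier_coe (n : d → ℤ) (α : d → ℝ) (s : ℝ) :
    UnitAddTorus.mFourier n (fun j => ((s * α j : ℝ) : UnitAddCircle)) =
      Complex.exp ((2 * π * s * ∑ j, (n j : ℝ) * α j : ℝ) * Complex.I) := by
  simp only [UnitAddTorus.mFourier, ContinuousMap.coe_mk, fourier_coe_apply]
  rw [← Complex.exp_sum]
  congr 1
  push_cast
  rw [Finset.mul_sum, Finset.sum_mul]
  refine Finset.sum_congr rfl fun i _ => ?_
  ring

theorem flow_of_rho (V : Lp ℂ 2 (μT d) ≃L[ℂ] H) (g : H) (ρ : (d → ℤ) → H →L[ℂ] H)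
    (hρ : ∀ n m f, ρ n (ρ m f) = ρ (n + m) f) (hρ0 : ρ 0 g = g)
    (hV : ∀ n, V (UnitAddTorus.mFourierLp 2 n) = ρ n g)
    (A : ℝ → H →L[ℂ] H) (α : d → ℝ) (h0 : ∀ f, A 0 f = f)
    (hadd : ∀ s s' f, A (s + s') f = A s (A s' f)) (hnorm : ∀ s f, ‖A s f‖ ≤ ‖f‖)
    (hcomm : ∀ s n f, A s (ρ n f) =
      Complex.exp ((2 * π * s * ∑ j, (n j : ℝ) * α j : ℝ) * Complex.I) • ρ n (A s f)) :
    Flow V (UnitAddTorus.mFourierLp 2 0) A (fun s j => ((s * α j : ℝ) : UnitAddCircle))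
      (1 + ‖(V.symm : H →L[ℂ] Lp ℂ 2 (μT d))‖ * ‖(V : Lp ℂ 2 (μT d) →L[ℂ] H)‖) where
  hK := by
    have : 0 ≤ ‖(V.symm : H →L[ℂ] Lp ℂ 2 (μT d))‖ * ‖(V : Lp ℂ 2 (μT d) →L[ℂ] H)‖ := by positivity
    linarith
  hone := by
    filter_upwards [UnitAddTorus.coeFn_mFourierLp (d := d) 2 0] with z hz
    rw [hz, UnitAddTorus.mFourier_zero, ContinuousMap.one_apply]
  zero := h0
  add := hadd
  y_add s s' := by
    funext j
    rw [Pi.add_apply, ← AddCircle.coe_add, add_mul]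
  bound s h := by
    calc ‖V.symm (A s (V h))‖ ≤ ‖(V.symm : H →L[ℂ] Lp ℂ 2 (μT d))‖ * ‖A s (V h)‖ :=
          (V.symm : H →L[ℂ] Lp ℂ 2 (μT d)).le_opNorm _
      _ ≤ ‖(V.symm : H →L[ℂ] Lp ℂ 2 (μT d))‖ * ‖V h‖ := by gcongr; exact hnorm s _
      _ ≤ ‖(V.symm : H →L[ℂ] Lp ℂ 2 (μT d))‖ * (‖(V : Lp ℂ 2 (μT d) →L[ℂ] H)‖ * ‖h‖) := by
          gcongr; exact (V : Lp ℂ 2 (μT d) →L[ℂ] H).le_opNorm _
      _ ≤ _ := by nlinarith [norm_nonneg h]
  weight s h := by
    have hd : Dense (Submodule.span ℂ (Set.range fun n : d → ℤ =>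
        (UnitAddTorus.mFourierLp 2 n : Lp ℂ 2 (μT d))) : Set (Lp ℂ 2 (μT d))) := by
      rw [Submodule.dense_iff_topologicalClosure_eq_top]
      exact UnitAddTorus.span_mFourierLp_closure_eq_top (by norm_num)
    refine ae_of_dense (μ := μT d) (χ := fun n z => UnitAddTorus.mFourier n z)
      (e := fun n => UnitAddTorus.mFourierLp 2 n)
      (fun n => UnitAddTorus.coeFn_mFourierLp 2 n) hd
      (((V.symm : H →L[ℂ] Lp ℂ 2 (μT d)) ∘L (A s)) ∘L (V : Lp ℂ 2 (μT d) →L[ℂ] H))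
      (fun j => ((s * α j : ℝ) : UnitAddCircle)) _ (fun n => ?_) h
    change V.symm (A s (V (UnitAddTorus.mFourierLp 2 n))) =ᵐ[μT d] _
    rw [hV, hcomm, map_smul]
    filter_upwards [rho_weight V g ρ hρ hV n (A s g), Lp.coeFn_smul
      (Complex.exp ((2 * π * s * ∑ j, (n j : ℝ) * α j : ℝ) * Complex.I))
      (V.symm (ρ n (A s g)))] with z h1 h2
    rw [h2, Pi.smul_apply, h1, mFourier_translate, mFourier_coe, hV, hρ0, smul_eq_mul]
    ring

end Pool.Agent.K4H44.BLT
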